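import Mathlib

set_option autoImplicit false

open Complex Topology Filter Metric MeasureTheory

namespace Pool.Agent.H713R2

/-- Taylor coefficients at the origin. -/
noncomputable def tc (F : ℂ → ℂ) (k : ℕ) : ℂ := ((k.factorial : ℂ))⁻¹ * iteratedDeriv k F 0

theorem hasSum_tc {F : ℂ → ℂ} {r : ℝ} (hF : DifferentiableOn ℂ F (ball 0 r)) {x : ℂ}
    (hx : x ∈ ball (0 : ℂ) r) : HasSum (fun k => tc F k * x ^ k) (F x) := by
  have h := hasSum_taylorSeries_on_ball hF hx
  have h2 : (fun k => tc F k * x ^ k) =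
      fun k : ℕ => ((k.factorial : ℂ))⁻¹ • (x - 0) ^ k • iteratedDeriv k F 0 := by
    funext k
    rw [sub_zero, smul_eq_mul, smul_eq_mul, tc]
    ring
  rw [h2]
  exact h

theorem coef_unique {a b : ℕ → ℂ} {F : ℂ → ℂ}
    (ha : ∀ᶠ x in 𝓝 (0 : ℂ), HasSum (fun k => a k * x ^ k) (F x))
    (hb : ∀ᶠ x in 𝓝 (0 : ℂ), HasSum (fun k => b k * x ^ k) (F x)) : a = b := by
  have key : ∀ c : ℕ → ℂ, (∀ᶠ x in 𝓝 (0 : ℂ), HasSum (fun k => c k * x ^ k) (F x)) →
      HasFPowerSeriesAt F (FormalMultilinearSeries.ofScalars ℂ c) 0 := by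
    intro c hc
    rw [hasFPowerSeriesAt_iff]
    filter_upwards [hc] with x hx
    simp only [FormalMultilinearSeries.coeff_ofScalars, smul_eq_mul, zero_add]
    simpa only [mul_comm] using hx
  have h := (key a ha).eq_formalMultilinearSeries (key b hb)
  funext k
  have h2 := congrArg (fun p => FormalMultilinearSeries.coeff p k) h
  simpa [FormalMultilinearSeries.coeff_ofScalars] using h2

theorem tc_unique {a : ℕ → ℂ} {F : ℂ → ℂ} {r : ℝ} (hr : 0 < r)
    (hF : DifferentiableOn ℂ F (ball 0 r))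
    (ha : ∀ᶠ x in 𝓝 (0 : ℂ), HasSum (fun k => a k * x ^ k) (F x)) : a = tc F :=
  coef_unique ha (by
    filter_upwards [ball_mem_nhds (0 : ℂ) hr] with x hx
    exact hasSum_tc hF hx)

theorem summable_norm_tc {F : ℂ → ℂ} {r : ℝ} (hF : DifferentiableOn ℂ F (ball 0 r)) {x : ℂ}
    (hx : x ∈ ball (0 : ℂ) r) : Summable (fun k => ‖tc F k * x ^ k‖) :=
  (hasSum_tc hF hx).summable.norm

theorem tc_mul {F G : ℂ → ℂ} {r : ℝ} (hr : 0 < r) (hF : DifferentiableOn ℂ F (ball 0 r))
    (hG : DifferentiableOn ℂ G (ball 0 r)) (n : ℕ) :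
    tc (fun x => F x * G x) n = ∑ p ∈ Finset.HasAntidiagonal.antidiagonal n, tc F p.1 * tc G p.2 := by
  have h := tc_unique (a := fun n => ∑ p ∈ Finset.HasAntidiagonal.antidiagonal n, tc F p.1 * tc G p.2)
    (F := fun x => F x * G x) hr (hF.mul hG) ?_
  · rw [← h]
  · filter_upwards [ball_mem_nhds (0 : ℂ) hr] with x hx
    have h1 := summable_norm_tc hF hx
    have h2 := summable_norm_tc hG hx
    have h3 := tsum_mul_tsum_eq_tsum_sum_antidiagonal_of_summable_norm h1 h2
    have h4 := (summable_norm_sum_mul_antidiagonal_of_summable_norm h1 h2).of_norm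
    rw [(hasSum_tc hF hx).tsum_eq, (hasSum_tc hG hx).tsum_eq] at h3
    have h5 : (fun n => ∑ kl ∈ Finset.HasAntidiagonal.antidiagonal n, tc F kl.1 * x ^ kl.1 * (tc G kl.2 * x ^ kl.2))
        = fun n => (∑ p ∈ Finset.HasAntidiagonal.antidiagonal n, tc F p.1 * tc G p.2) * x ^ n := by
      funext n
      rw [Finset.sum_mul]
      apply Finset.sum_congr rfl
      intro p hp
      rw [← Finset.HasAntidiagonal.mem_antidiagonal.mp hp, pow_add]
      ring
    rw [h5] at h3 h4
    rw [h3]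
    exact h4.hasSum

theorem tc_deriv (F : ℂ → ℂ) (k : ℕ) : tc (deriv F) k = (k + 1) * tc F (k + 1) := by
  unfold tc
  rw [← iteratedDeriv_succ', Nat.factorial_succ]
  have h1 : ((k.factorial : ℕ) : ℂ) ≠ 0 := by exact_mod_cast k.factorial_ne_zero
  have h2 : ((k : ℂ) + 1) ≠ 0 := by exact_mod_cast Nat.succ_ne_zero k
  push_cast
  field_simp

theorem tc_zero (F : ℂ → ℂ) : tc F 0 = F 0 := by simp [tc]

/-- Cauchy's formula for the Taylor coefficients. -/
theorem circleIntegral_tc {F : ℂ → ℂ} {R r : ℝ} (hr : 0 < r) (hrR : r < R)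
    (hF : DifferentiableOn ℂ F (ball 0 R)) (k : ℕ) :
    ∮ z in C(0, r), F z / z ^ (k + 1) = 2 * Real.pi * I * tc F k := by
  have h := (hF.mono (closedBall_subset_ball hrR)).circleIntegral_one_div_sub_center_pow_smul hr k
  simp only [sub_zero, smul_eq_mul] at h
  have h2 : (fun z : ℂ => F z / z ^ (k + 1)) = fun z => 1 / z ^ (k + 1) * F z := by
    funext z; ring
  rw [h2, h]
  unfold tc
  ring

end Pool.Agent.H713R2
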