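import Mathlib
import Pool.Agent.H713R2.TC

set_option autoImplicit false

open Complex Topology Filter Metric MeasureTheory Set

namespace Pool.Agent.H713R2

theorem det_mul_real (a : ℂ) :
    ((ContinuousLinearMap.toSpanSingleton ℂ a).restrictScalars ℝ : ℂ →L[ℝ] ℂ).det = ‖a‖ ^ 2 := by
  rw [ContinuousLinearMap.det, ← LinearMap.det_toMatrix Complex.basisOneI, Matrix.det_fin_two]
  simp [LinearMap.toMatrix_apply, Complex.basisOneI, Complex.sq_norm, Complex.normSq_apply]

/-- Fourier coefficients of a power series on a circle. -/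
theorem integral_exp_tc {F : ℂ → ℂ} (hF : DifferentiableOn ℂ F (ball 0 1)) {r : ℝ} (hr : 0 < r)
    (hr1 : r < 1) (k : ℕ) :
    ∫ θ in (-Real.pi)..Real.pi, Complex.exp (-(k * θ * I)) * F (circleMap 0 r θ) =
      2 * Real.pi * (tc F k * r ^ k) := by
  have h1 := circleIntegral_tc hr hr1 hF k
  have hper : Function.Periodic
      (fun θ : ℝ => Complex.exp (-(k * θ * I)) * F (circleMap 0 r θ)) (2 * Real.pi) := by
    intro θ
    have h2 : circleMap 0 r (θ + 2 * Real.pi) = circleMap 0 r θ := periodic_circleMap 0 r θ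
    have h3 : Complex.exp (-(k * ((θ + 2 * Real.pi : ℝ) : ℂ) * I)) = Complex.exp (-(k * θ * I)) := by
      have : -(k * ((θ + 2 * Real.pi : ℝ) : ℂ) * I) = -(k * θ * I) - k * (2 * Real.pi * I) := by
        push_cast; ring
      rw [this, Complex.exp_sub, Complex.exp_nat_mul_two_pi_mul_I, div_one]
    simp only
    rw [h2, h3]
  have h4 := hper.intervalIntegral_add_eq (-Real.pi) 0
  rw [show -Real.pi + 2 * Real.pi = Real.pi by ring, zero_add] at h4
  rw [h4]
  rw [circleIntegral] at h1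
  have h5 : ∀ θ : ℝ, deriv (circleMap 0 r) θ • (F (circleMap 0 r θ) / circleMap 0 r θ ^ (k + 1)) =
      (I / r ^ k) * (Complex.exp (-(k * θ * I)) * F (circleMap 0 r θ)) := by
    intro θ
    have hrC : (r : ℂ) ≠ 0 := by exact_mod_cast hr.ne'
    have h6 : circleMap 0 r θ = r * Complex.exp (θ * I) := by simp [circleMap]
    have h7 : Complex.exp (-(k * θ * I)) = (Complex.exp (θ * I) ^ k)⁻¹ := by
      rw [← Complex.exp_nat_mul, ← Complex.exp_neg]
      congr 1; ring
    have h8 : Complex.exp (θ * I) ≠ 0 := Complex.exp_ne_zero _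
    rw [deriv_circleMap, h7, smul_eq_mul]
    generalize F (circleMap 0 r θ) = v
    rw [h6, mul_pow]
    field_simp
    rw [pow_succ, pow_succ]
    ring
  simp only [h5] at h1
  rw [intervalIntegral.integral_const_mul] at h1
  have hrC : ((r : ℂ) ^ k) ≠ 0 := pow_ne_zero _ (by exact_mod_cast hr.ne')
  have hI := I_ne_zero
  generalize (∫ θ in (0:ℝ)..(2 * Real.pi), Complex.exp (-(k * θ * I)) * F (circleMap 0 r θ)) = J
    at h1 ⊢
  have h9 : J = (r ^ k / I) * (I / r ^ k * J) := by field_simp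
  rw [h9, h1]
  field_simp

/-- Bessel's inequality on a circle. -/
theorem bessel {F : ℂ → ℂ} (hF : DifferentiableOn ℂ F (ball 0 1)) {r : ℝ} (hr : 0 < r)
    (hr1 : r < 1) (K : ℕ) :
    2 * Real.pi * ∑ k ∈ Finset.range K, ‖tc F k‖ ^ 2 * r ^ (2 * k) ≤
      ∫ θ in (-Real.pi)..Real.pi, ‖F (circleMap 0 r θ)‖ ^ 2 := by
  have hpi := Real.pi_pos
  have hab : -Real.pi < Real.pi := by linarith
  set f : ℝ → ℂ := fun θ => F (circleMap 0 r θ) with hf
  have hfc : Continuous f := by
    apply hF.continuousOn.comp_continuous (continuous_circleMap 0 r)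
    intro θ
    rw [mem_ball_zero_iff, norm_circleMap_zero, abs_of_pos hr]
    exact hr1
  have hL2 : MemLp f 2 (volume.restrict (Ioc (-Real.pi) Real.pi)) := by
    obtain ⟨C, hC⟩ := (isCompact_Icc (a := -Real.pi) (b := Real.pi)).exists_bound_of_continuousOn
      hfc.continuousOn
    refine MemLp.of_bound hfc.aestronglyMeasurable C ?_
    rw [ae_restrict_iff' measurableSet_Ioc]
    exact Filter.Eventually.of_forall fun x hx => hC x (Ioc_subset_Icc_self hx)
  have hsum := hasSum_sq_fourierCoeffOn hab hL2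
  have hcoef : ∀ k : ℕ, fourierCoeffOn hab f (k : ℤ) = tc F k * r ^ k := by
    intro k
    rw [fourierCoeffOn_eq_integral]
    have h1 : ∀ θ : ℝ, fourier (-(k : ℤ)) (θ : AddCircle (Real.pi - -Real.pi)) • f θ =
        Complex.exp (-(k * θ * I)) * F (circleMap 0 r θ) := by
      intro θ
      rw [fourier_coe_apply, smul_eq_mul]
      congr 2
      have : (Real.pi : ℂ) ≠ 0 := by exact_mod_cast hpi.ne'
      push_cast
      field_simp
      ring
    simp only [h1]
    rw [integral_exp_tc hF hr hr1 k]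
    have : (Real.pi : ℂ) ≠ 0 := by exact_mod_cast hpi.ne'
    rw [Complex.real_smul]
    push_cast
    field_simp
    ring
  have h1 : ∑ k ∈ Finset.range K, ‖tc F k‖ ^ 2 * r ^ (2 * k) ≤
      (Real.pi - -Real.pi)⁻¹ • ∫ x in (-Real.pi)..Real.pi, ‖f x‖ ^ 2 := by
    have h2 := hsum.summable.sum_le_tsum ((Finset.range K).map Nat.castEmbedding)
      (fun i _ => by positivity)
    rw [hsum.tsum_eq, Finset.sum_map] at h2
    refine le_trans (le_of_eq ?_) h2
    apply Finset.sum_congr rfl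
    intro k _
    have h3 : fourierCoeffOn hab f (Nat.castEmbedding k : ℤ) = tc F k * r ^ k := hcoef k
    rw [h3, norm_mul, norm_pow, Complex.norm_real, Real.norm_eq_abs, abs_of_pos hr, mul_pow, ← pow_mul,
      mul_comm k 2]
  rw [smul_eq_mul, show Real.pi - -Real.pi = 2 * Real.pi by ring] at h1
  rw [← div_eq_inv_mul, le_div_iff₀ (by positivity)] at h1
  linarith

theorem polar_eq_circleMap (q : ℝ × ℝ) : Complex.polarCoord.symm q = circleMap 0 q.1 q.2 := by
  rw [Complex.polarCoord_symm_apply, circleMap, zero_add, Complex.exp_mul_I, Complex.ofReal_cos,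
    Complex.ofReal_sin]

/-- The area lemma: a bounded univalent function on an annulus has finite Dirichlet integral. -/
theorem area_lemma {f F : ℂ → ℂ} {p : ℕ} {C : ℝ} (hC : 0 ≤ C)
    (hF : DifferentiableOn ℂ F (ball 0 1))
    (hf : ∀ x, 1 / 2 < ‖x‖ → ‖x‖ < 1 → HasDerivAt f (F x / x ^ p) x)
    (hinj : InjOn f {x | 1 / 2 < ‖x‖ ∧ ‖x‖ < 1})
    (hb : ∀ x, 1 / 2 < ‖x‖ → ‖x‖ < 1 → ‖f x‖ ≤ C) (K : ℕ) :
    ∑ k ∈ Finset.range K, ‖tc F k‖ ^ 2 / (k + 1) ≤ 2 * C ^ 2 := by
  have hpi := Real.pi_pos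
  set A : Set ℂ := {x | 1 / 2 < ‖x‖ ∧ ‖x‖ < 1} with hA
  have hAo : IsOpen A := (isOpen_lt continuous_const continuous_norm).inter
    (isOpen_lt continuous_norm continuous_const)
  have hAm : MeasurableSet A := hAo.measurableSet
  have h1 := lintegral_abs_det_fderiv_eq_addHaar_image (volume : Measure ℂ) hAm
    (f := f) (f' := fun x => (ContinuousLinearMap.toSpanSingleton ℂ (F x / x ^ p)).restrictScalars ℝ)
    (fun x hx => ((hf x hx.1 hx.2).hasFDerivAt.restrictScalars ℝ).hasFDerivWithinAt) hinj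
  simp only [det_mul_real] at h1
  have h2 : volume (f '' A) ≤ ENNReal.ofReal C ^ 2 * NNReal.pi := by
    rw [← Complex.volume_closedBall 0 C]
    apply measure_mono
    rintro _ ⟨x, hx, rfl⟩
    rw [mem_closedBall_zero_iff]
    exact hb x hx.1 hx.2
  rw [← h1, ← lintegral_indicator hAm, ← Complex.lintegral_comp_polarCoord_symm] at h2
  set S : Set (ℝ × ℝ) := Ioo (1 / 2 : ℝ) 1 ×ˢ Ioo (-Real.pi) Real.pi with hS
  have hSm : MeasurableSet S := measurableSet_Ioo.prod measurableSet_Ioo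
  have hST : S ⊆ polarCoord.target := by
    rw [polarCoord_target]
    apply prod_mono _ subset_rfl
    intro r hr
    exact lt_trans (by norm_num) hr.1
  have hmem : ∀ q ∈ S, circleMap 0 q.1 q.2 ∈ A ∧ ‖circleMap 0 q.1 q.2‖ = q.1 := by
    intro q hq
    have h3 : ‖circleMap 0 q.1 q.2‖ = q.1 := by
      rw [norm_circleMap_zero, abs_of_pos (lt_trans (by norm_num) hq.1.1)]
    refine ⟨?_, h3⟩
    rw [hA]
    constructor
    · rw [h3]; exact hq.1.1
    · rw [h3]; exact hq.1.2
  have h3 : ∫⁻ q in S, ENNReal.ofReal (q.1 * ‖F (circleMap 0 q.1 q.2)‖ ^ 2) ≤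
      ENNReal.ofReal C ^ 2 * NNReal.pi := by
    refine le_trans ?_ ((lintegral_mono_set hST).trans h2)
    apply setLIntegral_mono_ae' hSm
    refine Filter.Eventually.of_forall fun q hq => ?_
    obtain ⟨h4, h5⟩ := hmem q hq
    have hq0 : 0 < q.1 := lt_trans (by norm_num) hq.1.1
    rw [polar_eq_circleMap, indicator_of_mem h4, smul_eq_mul, ← ENNReal.ofReal_mul hq0.le]
    apply ENNReal.ofReal_le_ofReal
    rw [abs_of_nonneg (by positivity), norm_div, norm_pow, h5]
    apply mul_le_mul_of_nonneg_left _ hq0.le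
    apply pow_le_pow_left₀ (norm_nonneg _)
    apply le_div_self (norm_nonneg _) (by positivity)
    exact pow_le_one₀ hq0.le hq.1.2.le
  -- Tonelli
  have hcont : ContinuousOn (fun q : ℝ × ℝ => q.1 * ‖F (circleMap 0 q.1 q.2)‖ ^ 2) S := by
    apply ContinuousOn.mul continuousOn_fst
    apply ContinuousOn.pow
    apply ContinuousOn.norm
    apply hF.continuousOn.comp
    · apply Continuous.continuousOn
      unfold circleMap
      fun_prop
    · intro q hq
      obtain ⟨h4, h5⟩ := hmem q hq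
      rw [mem_ball_zero_iff, h5]
      exact hq.1.2
  have hae : AEMeasurable (fun q : ℝ × ℝ => ENNReal.ofReal (q.1 * ‖F (circleMap 0 q.1 q.2)‖ ^ 2))
      (((volume : Measure ℝ).prod (volume : Measure ℝ)).restrict S) :=
    (hcont.aemeasurable hSm).ennreal_ofReal
  rw [Measure.volume_eq_prod, hS, setLIntegral_prod _ hae] at h3
  have h4 : ∫⁻ r in Ioo (1 / 2 : ℝ) 1,
      ENNReal.ofReal (2 * Real.pi * ∑ k ∈ Finset.range K, ‖tc F k‖ ^ 2 * r ^ (2 * k + 1)) ≤
      ENNReal.ofReal C ^ 2 * NNReal.pi := by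
    refine le_trans ?_ h3
    apply setLIntegral_mono_ae' measurableSet_Ioo
    refine Filter.Eventually.of_forall fun r hr => ?_
    have hr0 : 0 < r := lt_trans (by norm_num) hr.1
    have hc2 : Continuous (fun θ : ℝ => r * ‖F (circleMap 0 r θ)‖ ^ 2) := by
      apply continuous_const.mul
      apply Continuous.pow
      apply Continuous.norm
      apply hF.continuousOn.comp_continuous (continuous_circleMap 0 r)
      intro θ
      rw [mem_ball_zero_iff, norm_circleMap_zero, abs_of_pos hr0]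
      exact hr.2
    have h5 : ∫⁻ θ in Ioo (-Real.pi) Real.pi, ENNReal.ofReal (r * ‖F (circleMap 0 r θ)‖ ^ 2) =
        ENNReal.ofReal (∫ θ in (-Real.pi)..Real.pi, r * ‖F (circleMap 0 r θ)‖ ^ 2) := by
      rw [restrict_Ioo_eq_restrict_Ioc, intervalIntegral.integral_of_le (by linarith)]
      rw [ofReal_integral_eq_lintegral_ofReal]
      · exact (hc2.intervalIntegrable _ _).1
      · exact Filter.Eventually.of_forall fun θ => by positivity
    simp only
    rw [h5]
    apply ENNReal.ofReal_le_ofReal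
    rw [intervalIntegral.integral_const_mul]
    have h6 := bessel hF hr0 hr.2 K
    calc 2 * Real.pi * ∑ k ∈ Finset.range K, ‖tc F k‖ ^ 2 * r ^ (2 * k + 1)
        = r * (2 * Real.pi * ∑ k ∈ Finset.range K, ‖tc F k‖ ^ 2 * r ^ (2 * k)) := by
          rw [Finset.mul_sum, Finset.mul_sum, Finset.mul_sum]
          apply Finset.sum_congr rfl
          intro k _
          ring
      _ ≤ _ := mul_le_mul_of_nonneg_left h6 hr0.le
  have h5 : ∫⁻ r in Ioo (1 / 2 : ℝ) 1,
      ENNReal.ofReal (2 * Real.pi * ∑ k ∈ Finset.range K, ‖tc F k‖ ^ 2 * r ^ (2 * k + 1)) =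
      ENNReal.ofReal (∫ r in (1 / 2 : ℝ)..1,
        2 * Real.pi * ∑ k ∈ Finset.range K, ‖tc F k‖ ^ 2 * r ^ (2 * k + 1)) := by
    rw [restrict_Ioo_eq_restrict_Ioc, intervalIntegral.integral_of_le (by norm_num)]
    rw [ofReal_integral_eq_lintegral_ofReal]
    · have hc3 : Continuous (fun r : ℝ =>
        2 * Real.pi * ∑ k ∈ Finset.range K, ‖tc F k‖ ^ 2 * r ^ (2 * k + 1)) := by fun_prop
      exact (hc3.intervalIntegrable _ _).1
    · rw [Filter.EventuallyLE, ae_restrict_iff' measurableSet_Ioc]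
      refine Filter.Eventually.of_forall fun r hr => ?_
      have hr0 : 0 < r := lt_trans (by norm_num) hr.1
      simp only [Pi.zero_apply]
      positivity
  rw [h5] at h4
  have h6 : ENNReal.ofReal C ^ 2 * (NNReal.pi : ENNReal) = ENNReal.ofReal (C ^ 2 * Real.pi) := by
    rw [ENNReal.ofReal_mul (by positivity), ENNReal.ofReal_pow hC]
    congr 1
    rw [← NNReal.coe_real_pi, ENNReal.ofReal_coe_nnreal]
  rw [h6, ENNReal.ofReal_le_ofReal_iff (by positivity), intervalIntegral.integral_const_mul,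
    intervalIntegral.integral_finsetSum] at h4
  · have h7 : ∀ k ∈ Finset.range K, ‖tc F k‖ ^ 2 / (k + 1) ≤
        4 * ∫ r in (1 / 2 : ℝ)..1, ‖tc F k‖ ^ 2 * r ^ (2 * k + 1) := by
      intro k _
      rw [intervalIntegral.integral_const_mul, integral_pow]
      have h8 : (1 / 2 : ℝ) ^ (2 * k + 1 + 1) ≤ 1 / 4 := by
        calc (1 / 2 : ℝ) ^ (2 * k + 1 + 1) ≤ (1 / 2 : ℝ) ^ 2 :=
              pow_le_pow_of_le_one (by norm_num) (by norm_num) (by omega)
          _ = 1 / 4 := by norm_num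
      rw [one_pow]
      push_cast
      have h9 : (0 : ℝ) < (k : ℝ) + 1 := by positivity
      have h10 : (0 : ℝ) ≤ ‖tc F k‖ ^ 2 := by positivity
      rw [show 4 * (‖tc F k‖ ^ 2 * ((1 - (1 / 2 : ℝ) ^ (2 * k + 1 + 1)) / (2 * k + 1 + 1))) =
        ‖tc F k‖ ^ 2 * (2 * (1 - (1 / 2 : ℝ) ^ (2 * k + 1 + 1))) / (k + 1) by field_simp; ring]
      apply div_le_div_of_nonneg_right _ h9.le
      nlinarith
    calc ∑ k ∈ Finset.range K, ‖tc F k‖ ^ 2 / (k + 1)
        ≤ ∑ k ∈ Finset.range K, 4 * ∫ r in (1 / 2 : ℝ)..1, ‖tc F k‖ ^ 2 * r ^ (2 * k + 1) :=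
          Finset.sum_le_sum h7
      _ = 4 * ∑ k ∈ Finset.range K, ∫ r in (1 / 2 : ℝ)..1, ‖tc F k‖ ^ 2 * r ^ (2 * k + 1) := by
          rw [Finset.mul_sum]
      _ ≤ 2 * C ^ 2 := by
          have h11 : 2 * ∑ k ∈ Finset.range K, ∫ r in (1 / 2 : ℝ)..1,
            ‖tc F k‖ ^ 2 * r ^ (2 * k + 1) ≤ C ^ 2 := by
            have := h4
            rw [show 2 * Real.pi * (∑ k ∈ Finset.range K, ∫ r in (1 / 2 : ℝ)..1,
              ‖tc F k‖ ^ 2 * r ^ (2 * k + 1)) = (2 * (∑ k ∈ Finset.range K,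
              ∫ r in (1 / 2 : ℝ)..1, ‖tc F k‖ ^ 2 * r ^ (2 * k + 1))) * Real.pi by ring] at this
            exact le_of_mul_le_mul_right this hpi
          linarith
  · intro k _
    exact (by fun_prop : Continuous fun r : ℝ => ‖tc F k‖ ^ 2 * r ^ (2 * k + 1)).intervalIntegrable
      _ _

end Pool.Agent.H713R2
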