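import Mathlib
import Pool.Agent.H712R2.MultibrotConnected
import Pool.Agent.Helper202.Univ

set_option autoImplicit false

open Complex Set Topology Filter Metric

namespace Pool.Agent.H713R2

open Pool.Agent.H712R2 Pool.Agent.Helper202.Univ

theorem pow_ineq {y : ℝ} (hy : 1 ≤ y) {d : ℕ} (hd : 2 ≤ d) : y ^ d + 2 * y + 1 ≤ (y + 1) ^ d := by
  induction d, hd using Nat.le_induction with
  | base => nlinarith
  | succ n hn ih =>
    have h1 : 1 ≤ y ^ n := one_le_pow₀ hy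
    rw [pow_succ, pow_succ]
    nlinarith [mul_le_mul_of_nonneg_right ih (by linarith : (0:ℝ) ≤ y + 1)]

theorem low_growth {d : ℕ} (hd : 2 ≤ d) {n : ℕ} {c : ℂ} {R : ℝ} (hR : 2 ≤ R) (hc : ‖c‖ ≤ R)
    (hP : R ≤ ‖P d n c‖) (j : ℕ) : (R - 1) ^ (d ^ j) + 1 ≤ ‖P d (n + j) c‖ := by
  induction j with
  | zero => simpa using hP
  | succ j ih =>
    have hK : d ^ j ≠ 0 := pow_ne_zero _ (by omega)
    set y : ℝ := (R - 1) ^ (d ^ j) with hy
    have hy1 : R - 1 ≤ y := le_self_pow₀ (by linarith) hK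
    have h1 := pow_ineq (show 1 ≤ y by linarith) hd
    have h2 : (y + 1) ^ d ≤ ‖P d (n + j) c‖ ^ d := pow_le_pow_left₀ (by linarith) ih d
    have h3 : ‖(P d (n + j) c) ^ d‖ - ‖c‖ ≤ ‖P d (n + (j + 1)) c‖ := by
      rw [← add_assoc, P_succ]
      have := norm_sub_le ((P d (n + j) c) ^ d + c) c
      rw [add_sub_cancel_right] at this
      linarith
    rw [norm_pow] at h3
    have h4 : (R - 1) ^ (d ^ (j + 1)) = y ^ d := by rw [hy, ← pow_mul, pow_succ]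
    rw [h4]
    linarith

theorem up_growth {d : ℕ} (hd : 2 ≤ d) {n : ℕ} {c : ℂ} {R : ℝ} (hR : 2 ≤ R) (hc : ‖c‖ ≤ R)
    (hP : ‖P d n c‖ ≤ R) (j : ℕ) : ‖P d (n + j) c‖ ≤ (R + 1) ^ (d ^ j) - 1 := by
  induction j with
  | zero => simpa using hP
  | succ j ih =>
    have hK : d ^ j ≠ 0 := pow_ne_zero _ (by omega)
    set y : ℝ := (R + 1) ^ (d ^ j) with hy
    have hy1 : R + 1 ≤ y := le_self_pow₀ (by linarith) hK
    have h1 := pow_ineq (show 1 ≤ y - 1 by linarith) hd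
    have h2 : ‖P d (n + j) c‖ ^ d ≤ (y - 1) ^ d := pow_le_pow_left₀ (norm_nonneg _) ih d
    have h3 : ‖P d (n + (j + 1)) c‖ ≤ ‖P d (n + j) c‖ ^ d + ‖c‖ := by
      rw [← add_assoc, P_succ, ← norm_pow]
      exact norm_add_le _ _
    have h4 : (R + 1) ^ (d ^ (j + 1)) = y ^ d := by rw [hy, ← pow_mul, pow_succ]
    rw [h4]
    rw [sub_add_cancel] at h1
    linarith

/-- domain of the finite level coordinate -/
def Om (d m : ℕ) : Set ℂ := {c | 2 < ‖P d (m + 1) c‖}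

theorem isOpen_Om (d m : ℕ) : IsOpen (Om d m) :=
  isOpen_lt continuous_const (continuous_P d (m + 1)).norm

theorem differentiable_P (d k : ℕ) : Differentiable ℂ (P d k) := by
  induction k with
  | zero => exact differentiable_const _
  | succ k ih =>
    have : P d (k + 1) = fun c => (P d k c) ^ d + c := by
      funext c; exact P_succ d k c
    rw [this]; fun_prop

theorem Psi_ne {d m : ℕ} (hd : 2 ≤ d) {Ψ : ℂ → ℂ} (hΨ : IsPsi d m Ψ) {c : ℂ} (hc : c ∈ Om d m) :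
    Ψ c ≠ 0 := by
  intro h
  have := hΨ.pow c hc
  rw [h, zero_pow (pow_ne_zero _ (by omega))] at this
  have hc' : 2 < ‖P d (m + 1) c‖ := hc
  rw [← this, norm_zero] at hc'
  linarith

/-- A continuous root of a differentiable nonvanishing function is differentiable. -/
theorem differentiableAt_of_pow {N : ℕ} (hN : N ≠ 0) {Ψ p : ℂ → ℂ} {c0 : ℂ}
    (hc : ContinuousAt Ψ c0) (h0 : Ψ c0 ≠ 0) (hp : DifferentiableAt ℂ p c0)
    (he : ∀ᶠ c in 𝓝 c0, Ψ c ^ N = p c) : DifferentiableAt ℂ Ψ c0 := by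
  obtain ⟨O, hO, hwO, hinj⟩ := pow_locInj hN h0
  have hdf : DifferentiableOn ℂ (fun w : ℂ => w ^ N) O := by fun_prop
  have h1 : DifferentiableAt ℂ (Function.invFunOn (fun w : ℂ => w ^ N) O) (p c0) := by
    rw [← he.self_of_nhds]
    exact differentiableAt_inv hO hdf hinj (mem_image_of_mem _ hwO)
  have h2 : DifferentiableAt ℂ (Function.invFunOn (fun w : ℂ => w ^ N) O ∘ p) c0 := h1.comp c0 hp
  refine h2.congr_of_eventuallyEq ?_
  filter_upwards [he, hc.eventually (hO.mem_nhds hwO)] with c hc1 hc2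
  simp only [Function.comp]
  rw [← hc1]
  exact (invFunOn_left hinj hc2).symm

theorem Psi_diff {d m : ℕ} (hd : 2 ≤ d) {Ψ : ℂ → ℂ} (hΨ : IsPsi d m Ψ) :
    DifferentiableOn ℂ Ψ (Om d m) := by
  intro c hc
  apply DifferentiableAt.differentiableWithinAt
  apply differentiableAt_of_pow (N := d ^ m) (pow_ne_zero _ (by omega)) (hΨ.cont c hc)
    (Psi_ne hd hΨ hc) (differentiable_P d (m + 1) c)
  filter_upwards [(isOpen_Om d m).mem_nhds hc] with c' hc'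
  exact hΨ.pow c' hc'

theorem Psi_injOn {d m : ℕ} (hd : 2 ≤ d) {Ψ : ℂ → ℂ} (hΨ : IsPsi d m Ψ) :
    InjOn Ψ (Om d m) := fun c hc c' hc' h => Psi_inj hd hΨ c c' hc hc' h

theorem mem_Psi_image {d m : ℕ} (hd : 2 ≤ d) {Ψ : ℂ → ℂ} (hΨ : IsPsi d m Ψ) (w : ℂ) :
    w ∈ Ψ '' (Om d m) ↔ 2 < ‖w‖ ^ (d ^ m) := by
  constructor
  · rintro ⟨c, hc, rfl⟩
    rw [← norm_pow, hΨ.pow c hc]
    exact hc
  · intro hw
    obtain ⟨c, hc, h⟩ := Psi_surj hd hΨ w hw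
    exact ⟨c, hc, h⟩

/-- radius of the finite level coordinate disc -/
noncomputable def rad (d m : ℕ) : ℝ := (1 / 2 : ℝ) ^ (((d ^ m : ℕ) : ℝ)⁻¹)

theorem rad_pow {d : ℕ} (hd : 2 ≤ d) (m : ℕ) : rad d m ^ (d ^ m) = 1 / 2 :=
  Real.rpow_inv_natCast_pow (by norm_num) (pow_ne_zero _ (by omega))

theorem rad_pos (d m : ℕ) : 0 < rad d m := Real.rpow_pos_of_pos (by norm_num) _

theorem rad_lt_one {d : ℕ} (hd : 2 ≤ d) (m : ℕ) : rad d m < 1 := by
  by_contra h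
  push Not at h
  have := one_le_pow₀ (n := d ^ m) h
  rw [rad_pow hd] at this
  norm_num at this

theorem rad_tendsto {d : ℕ} (hd : 2 ≤ d) : Tendsto (rad d) atTop (𝓝 1) := by
  have h1 : Tendsto (fun m : ℕ => (((d ^ m : ℕ) : ℝ)⁻¹)) atTop (𝓝 0) := by
    have h2 : Tendsto (fun m : ℕ => ((d : ℝ) ^ m)⁻¹) atTop (𝓝 0) :=
      (tendsto_pow_atTop_atTop_of_one_lt (by exact_mod_cast (by omega : 1 < d))).inv_tendsto_atTop
    refine h2.congr fun m => ?_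
    push_cast; rfl
  have h3 := (Real.continuous_const_rpow (a := (1 / 2 : ℝ)) (by norm_num)).tendsto 0
  have h4 := h3.comp h1
  rw [Real.rpow_zero] at h4
  exact h4

theorem mem_ball_rad_iff {d : ℕ} (hd : 2 ≤ d) (m : ℕ) (x : ℂ) (hx : x ≠ 0) :
    x ∈ ball (0 : ℂ) (rad d m) ↔ 2 < ‖x⁻¹‖ ^ (d ^ m) := by
  have hN : d ^ m ≠ 0 := pow_ne_zero _ (by omega)
  have hx0 : 0 < ‖x‖ := norm_pos_iff.mpr hx
  have hxN : 0 < ‖x‖ ^ (d ^ m) := pow_pos hx0 _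
  rw [mem_ball_zero_iff, ← pow_lt_pow_iff_left₀ (norm_nonneg _) (rad_pos d m).le hN, rad_pow hd,
    norm_inv, inv_pow, lt_inv_comm₀ (by norm_num) hxN, one_div]

/-- The auxiliary functions `B_n`. -/
noncomputable def BB (d : ℕ) (g : ℂ → ℂ) : ℕ → ℂ → ℂ
  | 0 => g
  | n + 1 => fun x => (BB d g n x) ^ d + x ^ (d ^ (n + 1) - 1) * g x

theorem BB_zero (d : ℕ) (g : ℂ → ℂ) : BB d g 0 = g := rfl

theorem BB_succ (d : ℕ) (g : ℂ → ℂ) (n : ℕ) (x : ℂ) :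
    BB d g (n + 1) x = (BB d g n x) ^ d + x ^ (d ^ (n + 1) - 1) * g x := rfl

theorem BB_eq {d : ℕ} (hd : 2 ≤ d) (g : ℂ → ℂ) (n : ℕ) (x : ℂ) (hx : x ≠ 0) :
    BB d g n x = x ^ (d ^ n) * P d (n + 1) (x⁻¹ * g x) := by
  induction n with
  | zero =>
    rw [BB_zero, P_one hd, pow_zero, pow_one, mul_inv_cancel_left₀ hx]
  | succ n ih =>
    have hN : 1 ≤ d ^ (n + 1) := Nat.one_le_pow _ _ (by omega)
    rw [BB_succ, ih, P_succ d (n + 1), mul_pow, ← pow_mul, ← pow_succ, mul_add]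
    congr 1
    obtain ⟨k, hk⟩ := Nat.exists_eq_add_of_le' hN
    rw [hk, Nat.add_sub_cancel, pow_succ]
    field_simp

theorem BB_at_zero {d : ℕ} (hd : 2 ≤ d) (g : ℂ → ℂ) (n : ℕ) :
    BB d g n 0 = (g 0) ^ (d ^ n) := by
  induction n with
  | zero => simp [BB_zero]
  | succ n ih =>
    have hN : d ^ (n + 1) - 1 ≠ 0 := by
      have : 1 < d ^ (n + 1) := Nat.one_lt_pow (by omega) (by omega)
      omega
    rw [BB_succ, ih, zero_pow hN, zero_mul, add_zero, ← pow_mul, ← pow_succ]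

theorem BB_diff {d : ℕ} {g : ℂ → ℂ} {s : Set ℂ} (hg : DifferentiableOn ℂ g s) (n : ℕ) :
    DifferentiableOn ℂ (BB d g n) s := by
  induction n with
  | zero => exact hg
  | succ n ih =>
    have : BB d g (n + 1) = fun x => (BB d g n x) ^ d + x ^ (d ^ (n + 1) - 1) * g x := rfl
    rw [this]
    fun_prop

/-- Removable singularities, packaged. -/
theorem removable {r : ℝ} (hr : 0 < r) {q : ℂ → ℂ} (hd : DifferentiableOn ℂ q (ball 0 r \ {0}))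
    {C : ℝ} (hb : ∀ x ∈ ball (0 : ℂ) r, x ≠ 0 → ‖q x‖ ≤ C) :
    ∃ Q : ℂ → ℂ, DifferentiableOn ℂ Q (ball 0 r) ∧ ∀ x, x ≠ 0 → Q x = q x := by
  refine ⟨Function.update q 0 (limUnder (𝓝[≠] 0) q), ?_, ?_⟩
  · apply Complex.differentiableOn_update_limUnder_of_bddAbove (ball_mem_nhds 0 hr) hd
    refine ⟨C, ?_⟩
    rintro _ ⟨x, hx, rfl⟩
    exact hb x hx.1 hx.2
  · intro x hx
    exact Function.update_of_ne hx _ _

/-- Passing to the puncture by continuity. -/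
theorem eq_at_zero {r : ℝ} (hr : 0 < r) {F G : ℂ → ℂ} (hF : ContinuousAt F 0)
    (hG : ContinuousAt G 0) (h : ∀ x ∈ ball (0 : ℂ) r, x ≠ 0 → F x = G x) : F 0 = G 0 := by
  have h1 : Tendsto F (𝓝[≠] 0) (𝓝 (F 0)) := hF.tendsto.mono_left nhdsWithin_le_nhds
  have h2 : Tendsto G (𝓝[≠] 0) (𝓝 (G 0)) := hG.tendsto.mono_left nhdsWithin_le_nhds
  refine tendsto_nhds_unique (h1.congr' ?_) h2
  filter_upwards [self_mem_nhdsWithin, mem_nhdsWithin_of_mem_nhds (ball_mem_nhds 0 hr)] with x h3 h4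
  exact h x h4 h3

theorem norm_le_at_zero {r : ℝ} (hr : 0 < r) {F : ℂ → ℂ} (hF : ContinuousAt F 0) {C : ℝ}
    (h : ∀ x ∈ ball (0 : ℂ) r, x ≠ 0 → ‖F x‖ ≤ C) : ‖F 0‖ ≤ C := by
  have h1 : Tendsto (fun x => ‖F x‖) (𝓝[≠] 0) (𝓝 ‖F 0‖) :=
    hF.tendsto.norm.mono_left nhdsWithin_le_nhds
  refine le_of_tendsto h1 ?_
  filter_upwards [self_mem_nhdsWithin, mem_nhdsWithin_of_mem_nhds (ball_mem_nhds 0 hr)] with x h3 h4
  exact h x h4 h3

/-- Finite level exterior maps, in the coordinate `x = 1 / w`. -/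
structure IsGm (d m : ℕ) (g : ℂ → ℂ) : Prop where
  diff : DifferentiableOn ℂ g (ball 0 (rad d m))
  zero : g 0 = 1
  eq : ∀ x ∈ ball (0 : ℂ) (rad d m), x ≠ 0 → P d (m + 1) (x⁻¹ * g x) = (x⁻¹) ^ (d ^ m)
  inj : ∀ x ∈ ball (0 : ℂ) (rad d m), ∀ y ∈ ball (0 : ℂ) (rad d m), x ≠ 0 → y ≠ 0 →
    x⁻¹ * g x = y⁻¹ * g y → x = y
  surj : ∀ c ∈ Om d m, ∃ x ∈ ball (0 : ℂ) (rad d m), x ≠ 0 ∧ x⁻¹ * g x = c
  bound : ∀ x ∈ ball (0 : ℂ) (rad d m), ‖g x‖ ≤ 2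

theorem exists_gm {d : ℕ} (hd : 2 ≤ d) (m : ℕ) : ∃ g, IsGm d m g := by
  have hN : d ^ m ≠ 0 := pow_ne_zero _ (by omega)
  obtain ⟨Ψ, hΨ⟩ := exists_Psi hd m
  set χ : ℂ → ℂ := Function.invFunOn Ψ (Om d m) with hχ
  have hinj := Psi_injOn hd hΨ
  have hdiff := Psi_diff hd hΨ
  have hopen := isOpen_Om d m
  have hχd : ∀ w, 2 < ‖w‖ ^ (d ^ m) → DifferentiableAt ℂ χ w := fun w hw =>
    differentiableAt_inv hopen hdiff hinj ((mem_Psi_image hd hΨ w).mpr hw)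
  have hχm : ∀ w, 2 < ‖w‖ ^ (d ^ m) → χ w ∈ Om d m := fun w hw =>
    invFunOn_mem ((mem_Psi_image hd hΨ w).mpr hw)
  have hχr : ∀ w, 2 < ‖w‖ ^ (d ^ m) → Ψ (χ w) = w := fun w hw =>
    invFunOn_right ((mem_Psi_image hd hΨ w).mpr hw)
  have hχP : ∀ w, 2 < ‖w‖ ^ (d ^ m) → P d (m + 1) (χ w) = w ^ (d ^ m) := fun w hw => by
    rw [← hΨ.pow _ (hχm w hw), hχr w hw]
  have hχb : ∀ w, 2 < ‖w‖ ^ (d ^ m) → ‖χ w‖ ≤ ‖w‖ + 1 := by
    intro w hw
    have hw1 : 1 < ‖w‖ := by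
      by_contra h
      push Not at h
      have := pow_le_one₀ (n := d ^ m) (norm_nonneg w) h
      linarith
    by_cases h2 : ‖χ w‖ ≤ 2
    · linarith
    · push Not at h2
      have h3 := low_growth hd (n := 1) (c := χ w) (R := ‖χ w‖) h2.le le_rfl
        (by rw [P_one hd]) m
      rw [add_comm 1 m, hχP w hw, norm_pow] at h3
      by_contra h4
      push Not at h4
      have h5 : ‖w‖ ^ (d ^ m) ≤ (‖χ w‖ - 1) ^ (d ^ m) :=
        pow_le_pow_left₀ (norm_nonneg _) (by linarith) _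
      linarith
  set q : ℂ → ℂ := fun x => x * χ x⁻¹ with hq
  have hb : ∀ x, x ∈ ball (0 : ℂ) (rad d m) → x ≠ 0 → ‖q x‖ ≤ 2 := by
    intro x hx hx0
    have h1 := hχb x⁻¹ ((mem_ball_rad_iff hd m x hx0).mp hx)
    have h2 : ‖x‖ < 1 := (mem_ball_zero_iff.mp hx).trans (rad_lt_one hd m)
    have h3 : 0 < ‖x‖ := norm_pos_iff.mpr hx0
    simp only [hq, norm_mul]
    calc ‖x‖ * ‖χ x⁻¹‖ ≤ ‖x‖ * (‖x⁻¹‖ + 1) := by gcongr
      _ = 1 + ‖x‖ := by rw [norm_inv]; field_simp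
      _ ≤ 2 := by linarith
  have hqd : DifferentiableOn ℂ q (ball (0 : ℂ) (rad d m) \ {0}) := by
    intro x hx
    have hx0 : x ≠ 0 := hx.2
    apply DifferentiableAt.differentiableWithinAt
    apply DifferentiableAt.mul differentiableAt_id
    exact (hχd _ ((mem_ball_rad_iff hd m x hx0).mp hx.1)).comp x (differentiableAt_inv_iff.mpr hx0)
  have hrp := rad_pos d m
  obtain ⟨Q, hQd, hQe⟩ := removable hrp hqd hb
  have hQc : ContinuousAt Q 0 := (hQd.differentiableAt (ball_mem_nhds 0 hrp)).continuousAt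
  have hinv : ∀ x : ℂ, x ≠ 0 → x⁻¹ * Q x = χ x⁻¹ := by
    intro x hx
    rw [hQe x hx]
    simp only [hq]
    rw [inv_mul_cancel_left₀ hx]
  have hBB : ∀ x ∈ ball (0 : ℂ) (rad d m), x ≠ 0 → BB d Q m x = 1 := by
    intro x hx hx0
    rw [BB_eq hd Q m x hx0, hinv x hx0, hχP _ ((mem_ball_rad_iff hd m x hx0).mp hx), ← mul_pow,
      mul_inv_cancel₀ hx0, one_pow]
  have hB0 : BB d Q m 0 = 1 := by
    apply eq_at_zero hrp (F := BB d Q m) (G := fun _ => (1 : ℂ)) _ continuousAt_const hBB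
    exact ((BB_diff hQd m).differentiableAt (ball_mem_nhds 0 hrp)).continuousAt
  set κ : ℂ := Q 0 with hκ
  have hκN : κ ^ (d ^ m) = 1 := by rw [← BB_at_zero hd Q m]; exact hB0
  have hκ1 : ‖κ‖ = 1 := by
    have h1 : ‖κ‖ ^ (d ^ m) = 1 := by rw [← norm_pow, hκN, norm_one]
    exact (pow_eq_one_iff_of_nonneg (norm_nonneg _) hN).mp h1
  have hκ0 : κ ≠ 0 := by
    intro h
    rw [h, norm_zero] at hκ1
    exact zero_ne_one hκ1
  have hmem : ∀ x, x ∈ ball (0 : ℂ) (rad d m) → κ * x ∈ ball (0 : ℂ) (rad d m) := by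
    intro x hx
    rw [mem_ball_zero_iff] at hx ⊢
    rwa [norm_mul, hκ1, one_mul]
  have key : ∀ x : ℂ, x ≠ 0 → x⁻¹ * (κ⁻¹ * Q (κ * x)) = χ (κ * x)⁻¹ := by
    intro x hx
    rw [← hinv (κ * x) (mul_ne_zero hκ0 hx), mul_inv, mul_comm κ⁻¹ x⁻¹, mul_assoc]
  refine ⟨fun x => κ⁻¹ * Q (κ * x), ?_, ?_, ?_, ?_, ?_, ?_⟩
  · intro x hx
    apply DifferentiableAt.differentiableWithinAt
    have h1 : DifferentiableAt ℂ Q (κ * x) := hQd.differentiableAt (isOpen_ball.mem_nhds (hmem x hx))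
    have h2 : DifferentiableAt ℂ (fun x => κ * x) x := by fun_prop
    exact (h1.comp x h2).const_mul κ⁻¹
  · simp only [mul_zero]
    exact inv_mul_cancel₀ hκ0
  · intro x hx hx0
    rw [key x hx0, hχP _ ((mem_ball_rad_iff hd m _ (mul_ne_zero hκ0 hx0)).mp (hmem x hx)), mul_inv,
      mul_pow, inv_pow, hκN, inv_one, one_mul]
  · intro x hx y hy hx0 hy0 h
    rw [key x hx0, key y hy0] at h
    have h1 := congrArg Ψ h
    rw [hχr _ ((mem_ball_rad_iff hd m _ (mul_ne_zero hκ0 hx0)).mp (hmem x hx)),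
      hχr _ ((mem_ball_rad_iff hd m _ (mul_ne_zero hκ0 hy0)).mp (hmem y hy))] at h1
    exact mul_left_cancel₀ hκ0 (inv_injective h1)
  · intro c hc
    have hΨ0 := Psi_ne hd hΨ hc
    have hx0 : (κ⁻¹ * (Ψ c)⁻¹) ≠ 0 := mul_ne_zero (inv_ne_zero hκ0) (inv_ne_zero hΨ0)
    have h2 : (κ * (κ⁻¹ * (Ψ c)⁻¹))⁻¹ = Ψ c := by
      rw [mul_inv_cancel_left₀ hκ0, inv_inv]
    refine ⟨κ⁻¹ * (Ψ c)⁻¹, ?_, hx0, ?_⟩
    · rw [mem_ball_rad_iff hd m _ hx0, mul_inv, inv_inv, inv_inv, norm_mul, hκ1, one_mul]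
      exact (mem_Psi_image hd hΨ _).mp ⟨c, hc, rfl⟩
    · rw [key _ hx0, h2]
      exact invFunOn_left hinj hc
  · have hd' : DifferentiableOn ℂ (fun x => κ⁻¹ * Q (κ * x)) (ball 0 (rad d m)) := by
      intro x hx
      apply DifferentiableAt.differentiableWithinAt
      have h1 : DifferentiableAt ℂ Q (κ * x) :=
        hQd.differentiableAt (isOpen_ball.mem_nhds (hmem x hx))
      have h2 : DifferentiableAt ℂ (fun x => κ * x) x := by fun_prop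
      exact (h1.comp x h2).const_mul κ⁻¹
    have hb2 : ∀ x ∈ ball (0 : ℂ) (rad d m), x ≠ 0 → ‖κ⁻¹ * Q (κ * x)‖ ≤ 2 := by
      intro x hx hx0
      rw [norm_mul, norm_inv, hκ1, inv_one, one_mul, hQe _ (mul_ne_zero hκ0 hx0)]
      exact hb _ (hmem x hx) (mul_ne_zero hκ0 hx0)
    intro x hx
    by_cases hx0 : x = 0
    · subst hx0
      exact norm_le_at_zero hrp (F := fun x => κ⁻¹ * Q (κ * x))
        ((hd'.differentiableAt (ball_mem_nhds 0 hrp)).continuousAt) hb2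
    · exact hb2 x hx hx0

end Pool.Agent.H713R2
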