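import Mathlib
import Pool.Agent.H713R2.Ext1
import Pool.Agent.Helper114.MontelSol

set_option autoImplicit false

open Complex Set Topology Filter Metric Asymptotics N62a1eb23

namespace Pool.Agent.H713R2

open Pool.Agent.H712R2

/-- The exterior map of the Multibrot set in the coordinate `x = 1 / z`: the exterior conformal
map is `z ↦ z * β (1 / z)`. -/
structure IsBeta (d : ℕ) (β : ℂ → ℂ) : Prop where
  diff : DifferentiableOn ℂ β (ball 0 1)
  zero : β 0 = 1
  bound : ∀ x ∈ ball (0 : ℂ) 1, ‖β x‖ ≤ 2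
  inj : ∀ x ∈ ball (0 : ℂ) 1, ∀ y ∈ ball (0 : ℂ) 1, x ≠ 0 → y ≠ 0 →
    x⁻¹ * β x = y⁻¹ * β y → x = y
  surj : ∀ c ∉ multibrotSet d, ∃ x ∈ ball (0 : ℂ) 1, x ≠ 0 ∧ x⁻¹ * β x = c
  notMem : ∀ x ∈ ball (0 : ℂ) 1, x ≠ 0 → x⁻¹ * β x ∉ multibrotSet d
  order : ∀ n, ∃ C, ∀ x ∈ ball (0 : ℂ) (1 / 2), ‖BB d β n x - 1‖ ≤ C * ‖x‖ ^ (d ^ (n + 1) - 1)

theorem rad_ge_half {d : ℕ} (hd : 2 ≤ d) (m : ℕ) : 1 / 2 ≤ rad d m := by
  have h1 : rad d m ^ (d ^ m) ≤ rad d m ^ 1 :=
    pow_le_pow_of_le_one (rad_pos d m).le (rad_lt_one hd m).le (Nat.one_le_pow _ _ (by omega))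
  rw [rad_pow hd, pow_one] at h1
  exact h1

/-- uniform bounds for `BB` -/
noncomputable def MM (d : ℕ) : ℕ → ℝ
  | 0 => 2
  | n + 1 => (MM d n) ^ d + 2

theorem MM_nonneg (d n : ℕ) : 0 ≤ MM d n := by
  induction n with
  | zero => simp [MM]
  | succ n ih => simp only [MM]; positivity

theorem BB_bound {d : ℕ} {g : ℂ → ℂ} {x : ℂ} (hx : ‖x‖ ≤ 1) (hg : ‖g x‖ ≤ 2) (n : ℕ) :
    ‖BB d g n x‖ ≤ MM d n := by
  induction n with
  | zero => exact hg
  | succ n ih =>
    rw [BB_succ]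
    calc ‖(BB d g n x) ^ d + x ^ (d ^ (n + 1) - 1) * g x‖
        ≤ ‖(BB d g n x) ^ d‖ + ‖x ^ (d ^ (n + 1) - 1) * g x‖ := norm_add_le _ _
      _ ≤ (MM d n) ^ d + 1 * 2 := by
          rw [norm_pow, norm_mul, norm_pow]
          gcongr
          exact pow_le_one₀ (norm_nonneg _) hx
      _ = MM d (n + 1) := by simp [MM]

/-- The order of vanishing of `B_n - 1` at the origin, finite level. -/
theorem BB_order {d : ℕ} (hd : 2 ≤ d) {m : ℕ} {g : ℂ → ℂ} (hg : IsGm d m g) (j : ℕ) :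
    ∀ n, n + j = m →
    (fun x => BB d g n x - 1) =O[𝓝 0] (fun x : ℂ => x ^ (d ^ (n + 1) - 1)) := by
  have hr := rad_pos d m
  have hgc : ContinuousAt g 0 := (hg.diff.differentiableAt (ball_mem_nhds 0 hr)).continuousAt
  have hBc : ∀ n, ContinuousAt (BB d g n) 0 := fun n =>
    ((BB_diff hg.diff n).differentiableAt (ball_mem_nhds 0 hr)).continuousAt
  induction j with
  | zero =>
    intro n hn
    have hnm : n = m := by omega
    subst hnm
    have h1 : ∀ᶠ x in 𝓝 (0 : ℂ), BB d g n x - 1 = 0 := by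
      filter_upwards [ball_mem_nhds 0 hr] with x hx
      by_cases hx0 : x = 0
      · subst hx0
        rw [BB_at_zero hd, hg.zero, one_pow, sub_self]
      · rw [BB_eq hd g n x hx0, hg.eq x hx hx0, ← mul_pow, mul_inv_cancel₀ hx0, one_pow, sub_self]
    exact (isBigO_zero _ _).congr' (h1.mono fun x hx => hx.symm) (Eventually.of_forall fun _ => rfl)
  | succ j ih =>
    intro n hn
    have h1 := ih (n + 1) (by omega)
    -- `B_n ^ d - 1` is small
    have h2 : (fun x => (BB d g n x) ^ d - 1) =O[𝓝 0] (fun x : ℂ => x ^ (d ^ (n + 1) - 1)) := by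
      have h3 : (fun x : ℂ => x ^ (d ^ (n + 1 + 1) - 1)) =O[𝓝 0]
          (fun x : ℂ => x ^ (d ^ (n + 1) - 1)) := by
        apply IsBigO.of_bound 1
        filter_upwards [ball_mem_nhds (0 : ℂ) one_pos] with x hx
        rw [one_mul, norm_pow, norm_pow]
        apply pow_le_pow_of_le_one (norm_nonneg _) (mem_ball_zero_iff.mp hx).le
        have : d ^ (n + 1) ≤ d ^ (n + 1 + 1) := Nat.pow_le_pow_right (by omega) (by omega)
        omega
      have h4 : (fun x : ℂ => x ^ (d ^ (n + 1) - 1) * g x) =O[𝓝 0]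
          (fun x : ℂ => x ^ (d ^ (n + 1) - 1)) := by
        have h5 : g =O[𝓝 0] (fun _ => (1 : ℂ)) := hgc.isBigO_one ℂ
        simpa using (isBigO_refl (fun x : ℂ => x ^ (d ^ (n + 1) - 1)) (𝓝 0)).mul h5
      refine ((h1.trans h3).sub h4).congr (fun x => ?_) (fun _ => rfl)
      rw [BB_succ]
      ring
    -- divide
    set S : ℂ → ℂ := fun x => ∑ i ∈ Finset.range d, (BB d g n x) ^ i with hS
    have hS0 : S 0 = d := by
      simp [hS, BB_at_zero hd, hg.zero]
    have hSc : ContinuousAt S 0 := by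
      have := hBc n
      simp only [hS]
      fun_prop
    have hd0 : (d : ℂ) ≠ 0 := by exact_mod_cast (show d ≠ 0 by omega)
    have hSi : (fun x => (S x)⁻¹) =O[𝓝 0] (fun _ => (1 : ℂ)) :=
      (hSc.inv₀ (by rw [hS0]; exact hd0)).isBigO_one ℂ
    have hSne : ∀ᶠ x in 𝓝 (0 : ℂ), S x ≠ 0 :=
      hSc.eventually_ne (by rw [hS0]; exact hd0)
    have h6 := h2.mul hSi
    simp only [mul_one] at h6
    refine h6.congr' ?_ (Eventually.of_forall fun _ => rfl)
    filter_upwards [hSne] with x hx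
    have h7 : S x * (BB d g n x - 1) = (BB d g n x) ^ d - 1 := geom_sum_mul _ _
    rw [← h7]
    field_simp

/-- Uniform version, by the Schwarz lemma. -/
theorem BB_unif {d : ℕ} (hd : 2 ≤ d) {m : ℕ} {g : ℂ → ℂ} (hg : IsGm d m g) {n : ℕ} (hn : n ≤ m)
    {x : ℂ} (hx : x ∈ ball (0 : ℂ) (1 / 2)) :
    ‖BB d g n x - 1‖ ≤ (MM d n + 1) * 2 ^ (d ^ (n + 1) - 1) * ‖x‖ ^ (d ^ (n + 1) - 1) := by
  have hK : d ^ (n + 1) - 1 ≠ 0 := by
    have : 1 < d ^ (n + 1) := Nat.one_lt_pow (by omega) (by omega)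
    omega
  obtain ⟨K, hKe⟩ := Nat.exists_eq_succ_of_ne_zero hK
  have h0 : BB d g n 0 = 1 := by rw [BB_at_zero hd, hg.zero, one_pow]
  have hsub : ball (0 : ℂ) (1 / 2) ⊆ ball 0 (rad d m) := ball_subset_ball (rad_ge_half hd m)
  have h1 := Complex.dist_le_mul_div_pow_of_mapsTo_ball_of_isLittleO (f := BB d g n) (c := 0)
    (z := x) (R₁ := 1 / 2) (R₂ := MM d n + 1) (n := K) ((BB_diff hg.diff n).mono hsub) ?_ ?_ hx
  · rw [h0, dist_eq_norm, dist_zero_right, ← Nat.succ_eq_add_one, ← hKe] at h1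
    refine h1.trans_eq ?_
    rw [div_pow, one_div, inv_pow, div_inv_eq_mul]
    ring
  · intro y hy
    rw [mem_closedBall, h0, dist_eq_norm]
    have h2 : ‖y‖ ≤ 1 := by
      have := mem_ball_zero_iff.mp hy
      linarith
    have := BB_bound h2 (hg.bound y (hsub hy)) n (d := d)
    calc ‖BB d g n y - 1‖ ≤ ‖BB d g n y‖ + ‖(1 : ℂ)‖ := norm_sub_le _ _
      _ ≤ MM d n + 1 := by rw [norm_one]; linarith
  · rw [h0]
    obtain ⟨j, hj⟩ := Nat.exists_eq_add_of_le hn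
    have h2 := BB_order hd hg j n hj.symm
    rw [hKe] at h2
    refine h2.trans_isLittleO ?_
    have h3 : (fun x : ℂ => x ^ (K + 1)) =o[𝓝 0] (fun x : ℂ => x ^ K) :=
      isLittleO_pow_pow (Nat.lt_succ_self K)
    refine h3.norm_right.congr (fun _ => rfl) (fun x => ?_)
    rw [sub_zero, norm_pow]

/-- Parameters outside of the Multibrot set have rapidly growing critical orbits. -/
theorem exists_escape {d : ℕ} (hd : 2 ≤ d) {c : ℂ} (hc : c ∉ multibrotSet d) :
    ∃ m0 : ℕ, ∀ j, (2 : ℝ) ^ (d ^ j) + 1 ≤ ‖P d (m0 + j + 1) c‖ := by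
  rw [multibrot_eq_iInter hd, mem_iInter, not_forall] at hc
  obtain ⟨m0, hm0⟩ := hc
  have hm : 3 < ‖P d (m0 + 1) c‖ := not_le.mp hm0
  have h1 := esc_of_gt hd (show 1 ≤ m0 + 1 by omega) (show 2 < ‖P d (m0 + 1) c‖ by linarith)
  refine ⟨m0, fun j => ?_⟩
  have h2 := low_growth hd (n := m0 + 1) (c := c) (R := ‖P d (m0 + 1) c‖) (by linarith) h1 le_rfl j
  rw [show m0 + 1 + j = m0 + j + 1 by ring] at h2
  have h3 : (2 : ℝ) ^ (d ^ j) ≤ (‖P d (m0 + 1) c‖ - 1) ^ (d ^ j) :=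
    pow_le_pow_left₀ (by norm_num) (by linarith) _
  linarith

theorem exists_beta {d : ℕ} (hd : 2 ≤ d) : ∃ β, IsBeta d β := by
  classical
  choose g hg using exists_gm hd
  have hr0 := rad_pos d
  have hr1 := rad_lt_one hd
  set F : ℕ → ℂ → ℂ := fun m x => g m (rad d m * x) with hF
  have hmem : ∀ m, ∀ x ∈ ball (0 : ℂ) 1, (rad d m : ℂ) * x ∈ ball (0 : ℂ) (rad d m) := by
    intro m x hx
    rw [mem_ball_zero_iff] at hx ⊢
    rw [norm_mul, Complex.norm_real, Real.norm_eq_abs, abs_of_pos (hr0 m)]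
    nlinarith [hr0 m]
  have hrC : ∀ m, (rad d m : ℂ) ≠ 0 := fun m => by exact_mod_cast (hr0 m).ne'
  have hFd : ∀ m, DifferentiableOn ℂ (F m) (ball 0 1) := by
    intro m x hx
    apply DifferentiableAt.differentiableWithinAt
    have h1 : DifferentiableAt ℂ (g m) (rad d m * x) :=
      (hg m).diff.differentiableAt (isOpen_ball.mem_nhds (hmem m x hx))
    have h2 : DifferentiableAt ℂ (fun x : ℂ => rad d m * x) x := by fun_prop
    exact h1.comp x h2
  have hFb : ∀ m, ∀ x ∈ ball (0 : ℂ) 1, ‖F m x‖ ≤ 2 := fun m x hx => (hg m).bound _ (hmem m x hx)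
  set 𝒰 : Ultrafilter ℕ := hyperfilter ℕ with h𝒰
  have hle : (𝒰 : Filter ℕ) ≤ atTop := Nat.hyperfilter_le_atTop
  obtain ⟨β, hβd, hβ⟩ := Pool.Agent.Helper114.Montel.montel isOpen_ball F hFd 2 hFb 𝒰
  have hpt : ∀ x ∈ ball (0 : ℂ) 1, Tendsto (fun m => F m x) 𝒰 (𝓝 (β x)) := fun x hx =>
    hβ.tendsto_at hx
  have hrt : Tendsto (fun m => (rad d m : ℂ)) 𝒰 (𝓝 1) := by
    have := (Complex.continuous_ofReal.tendsto 1).comp ((rad_tendsto hd).mono_left hle)
    simpa using! this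
  have hβ0 : β 0 = 1 := by
    have h1 := hpt 0 (mem_ball_self one_pos)
    have h2 : (fun m => F m 0) = fun _ => (1 : ℂ) := by
      funext m; simp [hF, (hg m).zero]
    rw [h2] at h1
    exact (tendsto_nhds_unique h1 tendsto_const_nhds)
  have hβc : ∀ x ∈ ball (0 : ℂ) 1, ContinuousAt β x := fun x hx =>
    (hβd.differentiableAt (isOpen_ball.mem_nhds hx)).continuousAt
  refine ⟨β, hβd, hβ0, ?_, ?_, ?_, ?_, ?_⟩
  · -- bound
    intro x hx
    exact le_of_tendsto (hpt x hx).norm (Eventually.of_forall fun m => hFb m x hx)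
  · -- injectivity
    intro x hx y hy hx0 hy0 hxy
    by_contra hne
    set c : ℂ := x⁻¹ * β x with hc
    have hlim : TendstoLocallyUniformlyOn (fun m z => F m z - c * z) (fun z => β z - c * z)
        (𝒰 : Filter ℕ) (ball 0 1) := by
      rw [Metric.tendstoLocallyUniformlyOn_iff] at hβ ⊢
      intro ε hε z hz
      obtain ⟨t, ht, h⟩ := hβ ε hε z hz
      refine ⟨t, ht, ?_⟩
      filter_upwards [h] with m hm w hw
      rw [dist_sub_right]
      exact hm w hw
    have hGd : ∀ m, DifferentiableOn ℂ (fun z => F m z - c * z) (ball 0 1) := fun m =>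
      (hFd m).sub (by fun_prop)
    have hβGd : DifferentiableOn ℂ (fun z => β z - c * z) (ball 0 1) := hβd.sub (by fun_prop)
    have hnc : ∀ z ∈ ball (0 : ℂ) 1, β z - c * z = 0 →
        ¬ ∀ᶠ w in 𝓝 z, (fun z => β z - c * z) w = (fun z => β z - c * z) z := by
      intro z hz hz0 hev
      have h1 : EqOn (fun z => β z - c * z) (fun _ => (0 : ℂ)) (ball 0 1) := by
        refine (hβGd.analyticOnNhd isOpen_ball).eqOn_of_preconnected_of_eventuallyEq
          (fun _ _ => analyticAt_const) (convex_ball 0 1).isPreconnected hz ?_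
        filter_upwards [hev] with w hw
        rw [hw]
        exact hz0
      have h2 := h1 (mem_ball_self one_pos)
      simp [hβ0] at h2
    have hx' : β x - c * x = 0 := by rw [hc]; field_simp; ring
    have hy' : β y - c * y = 0 := by rw [hxy]; field_simp; ring
    obtain ⟨Bx, hBx, By, hBy, hdisj⟩ := t2_separation_nhds hne |> fun ⟨u, v, hu, hv, huv⟩ =>
      (⟨u, hu, v, hv, huv⟩ : ∃ u ∈ 𝓝 x, ∃ v ∈ 𝓝 y, Disjoint u v)
    have hx1 : {z : ℂ | z ≠ 0} ∈ 𝓝 x := isOpen_ne.mem_nhds hx0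
    have hy1 : {z : ℂ | z ≠ 0} ∈ 𝓝 y := isOpen_ne.mem_nhds hy0
    obtain ⟨Vx, hVx, hex⟩ := Pool.Agent.Helper114.Montel.hurwitz_cover isOpen_ball _ _ hGd hlim hx
      (hnc x hx hx') (inter_mem hBx (inter_mem hx1 (isOpen_ball.mem_nhds hx)))
    obtain ⟨Vy, hVy, hey⟩ := Pool.Agent.Helper114.Montel.hurwitz_cover isOpen_ball _ _ hGd hlim hy
      (hnc y hy hy') (inter_mem hBy (inter_mem hy1 (isOpen_ball.mem_nhds hy)))
    obtain ⟨m, hmx, hmy⟩ := (hex.and hey).exists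
    simp only [hx'] at hVx
    simp only [hy'] at hVy
    obtain ⟨x', ⟨hx'1, hx'2, hx'3⟩, hx'4⟩ := hmx (mem_of_mem_nhds hVx)
    obtain ⟨y', ⟨hy'1, hy'2, hy'3⟩, hy'4⟩ := hmy (mem_of_mem_nhds hVy)
    have hx'5 : x' ≠ 0 := hx'2
    have hy'5 : y' ≠ 0 := hy'2
    have key : ∀ z : ℂ, z ≠ 0 → F m z - c * z = 0 →
        (rad d m * z)⁻¹ * g m (rad d m * z) = (rad d m : ℂ)⁻¹ * c := by
      intro z hz h
      have h1 : g m (rad d m * z) = c * z := by
        have : F m z = c * z := by linear_combination h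
        exact this
      rw [h1, mul_inv]
      field_simp
    have h1 := (hg m).inj _ (hmem m x' hx'3) _ (hmem m y' hy'3)
      (mul_ne_zero (hrC m) hx'5) (mul_ne_zero (hrC m) hy'5)
      (by rw [key x' hx'5 hx'4, key y' hy'5 hy'4])
    have h2 := mul_left_cancel₀ (hrC m) h1
    subst h2
    exact (Set.disjoint_left.mp hdisj) hx'1 hy'1
  · -- surjectivity
    intro c hc
    obtain ⟨m0, hm0⟩ := exists_escape hd hc
    have hex : ∀ m, m0 ≤ m → ∃ x, x ∈ ball (0 : ℂ) (rad d m) ∧ x ≠ 0 ∧ x⁻¹ * g m x = c ∧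
        ‖x‖ ≤ rad d m0 := by
      intro m hm
      obtain ⟨j, rfl⟩ := Nat.exists_eq_add_of_le hm
      have h1 := hm0 j
      have h2 : (2 : ℝ) ≤ 2 ^ (d ^ j) := le_self_pow₀ (by norm_num) (pow_ne_zero _ (by omega))
      have h3 : c ∈ Om d (m0 + j) := by
        change 2 < ‖P d (m0 + j + 1) c‖
        linarith
      obtain ⟨x, hx, hx0, hxc⟩ := (hg (m0 + j)).surj c h3
      refine ⟨x, hx, hx0, hxc, ?_⟩
      have h4 := (hg (m0 + j)).eq x hx hx0
      rw [hxc] at h4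
      rw [h4, norm_pow, norm_inv, inv_pow] at h1
      have hxp : 0 < ‖x‖ := norm_pos_iff.mpr hx0
      have h5 : (‖x‖ ^ (d ^ m0)) ^ (d ^ j) ≤ (1 / 2) ^ (d ^ j) := by
        rw [← pow_mul, ← pow_add, one_div, inv_pow]
        rw [le_inv_comm₀ (by positivity) (by positivity)]
        linarith
      have h6 : ‖x‖ ^ (d ^ m0) ≤ 1 / 2 :=
        (pow_le_pow_iff_left₀ (by positivity) (by norm_num) (pow_ne_zero _ (by omega))).mp h5
      rw [← rad_pow hd m0] at h6
      exact (pow_le_pow_iff_left₀ (norm_nonneg _) (hr0 m0).le (pow_ne_zero _ (by omega))).mp h6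
    choose! X hX1 hX2 hX3 hX4 using hex
    have hmev : ∀ᶠ m in (𝒰 : Filter ℕ), m0 ≤ m := hle (eventually_ge_atTop m0)
    obtain ⟨x, hx, hxl⟩ := (isCompact_closedBall (0 : ℂ) (rad d m0)).ultrafilter_le_nhds
      (𝒰.map X) (by
        rw [le_principal_iff, Ultrafilter.coe_map, Filter.mem_map]
        filter_upwards [hmev] with m hm
        rw [mem_preimage, mem_closedBall_zero_iff]
        exact hX4 m hm)
    have hxt : Tendsto X 𝒰 (𝓝 x) := hxl
    have hx1 : x ∈ ball (0 : ℂ) 1 := by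
      rw [mem_ball_zero_iff]
      exact (mem_closedBall_zero_iff.mp hx).trans_lt (hr1 m0)
    have hyt : Tendsto (fun m => (rad d m : ℂ)⁻¹ * X m) 𝒰 (𝓝 x) := by
      have := (hrt.inv₀ one_ne_zero).mul hxt
      simpa using this
    have h1 : Tendsto (fun m => F m ((rad d m : ℂ)⁻¹ * X m)) 𝒰 (𝓝 (β x)) := by
      apply hβ.tendsto_comp (hβc x hx1).continuousWithinAt hx1
      rw [tendsto_nhdsWithin_iff]
      exact ⟨hyt, hyt (isOpen_ball.mem_nhds hx1)⟩
    have h2 : Tendsto (fun m => c * X m) 𝒰 (𝓝 (c * x)) := hxt.const_mul c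
    have h3 : β x = c * x := by
      refine tendsto_nhds_unique h1 (h2.congr' ?_)
      filter_upwards [hmev] with m hm
      simp only [hF]
      rw [mul_inv_cancel_left₀ (hrC m), ← hX3 m hm]
      have := hX2 m hm
      field_simp
    have hx0 : x ≠ 0 := by
      rintro rfl
      rw [hβ0, mul_zero] at h3
      exact one_ne_zero h3
    exact ⟨x, hx1, hx0, by rw [h3]; field_simp⟩
  · -- the image avoids the Multibrot set
    intro x hx hx0 hM
    set c : ℂ := x⁻¹ * β x with hc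
    have hM2 := (mem_multibrot_iff hd c).mp hM
    have hxp : 0 < ‖x‖ := norm_pos_iff.mpr hx0
    have hx1 : ‖x‖ < 1 := mem_ball_zero_iff.mp hx
    have hct : Tendsto (fun m => (rad d m * x)⁻¹ * F m x) 𝒰 (𝓝 c) := by
      have h1 : Tendsto (fun m => (rad d m * x)⁻¹) 𝒰 (𝓝 ((1 * x)⁻¹)) :=
        (hrt.mul_const x).inv₀ (by simpa using hx0)
      have := h1.mul (hpt x hx)
      simpa [hc] using this
    obtain ⟨n, hn⟩ : ∃ n : ℕ, 4 < ‖x‖⁻¹ ^ (d ^ n) := by
      have h1 : Tendsto (fun n : ℕ => ‖x‖⁻¹ ^ (d ^ n)) atTop atTop :=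
        (tendsto_pow_atTop_atTop_of_one_lt (one_lt_inv_iff₀.mpr ⟨hxp, hx1⟩)).comp
          (tendsto_pow_atTop_atTop_of_one_lt (by omega))
      exact (h1.eventually_gt_atTop 4).exists
    have hcb : ‖c‖ ≤ 2 := by
      have := hM2 1
      rwa [P_one hd] at this
    have h1 : ∀ᶠ m in (𝒰 : Filter ℕ), ‖(rad d m * x)⁻¹ * F m x‖ < 3 :=
      hct.norm.eventually (gt_mem_nhds (by linarith))
    have h2 : ∀ᶠ m in (𝒰 : Filter ℕ), ‖P d (n + 1) ((rad d m * x)⁻¹ * F m x)‖ < 3 := by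
      have h3 := ((continuous_P d (n + 1)).tendsto c).comp hct
      have h4 := hM2 (n + 1)
      exact h3.norm.eventually (gt_mem_nhds (by linarith))
    obtain ⟨m, h3, h4, h5⟩ := (h1.and (h2.and (hle (eventually_ge_atTop n)))).exists
    obtain ⟨j, rfl⟩ := Nat.exists_eq_add_of_le h5
    have h6 := up_growth hd (n := n + 1) (R := 3) (by norm_num) h3.le h4.le j
    have h7 := (hg (n + j)).eq _ (hmem (n + j) x hx) (mul_ne_zero (hrC _) hx0)
    have h8 : (rad d (n + j) * x)⁻¹ * F (n + j) x =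
      (rad d (n + j) * x)⁻¹ * g (n + j) (rad d (n + j) * x) := rfl
    rw [h8, show n + 1 + j = n + j + 1 by ring, h7, norm_pow, norm_inv, norm_mul,
      Complex.norm_real, Real.norm_eq_abs, abs_of_pos (hr0 _), mul_inv, mul_pow, inv_pow,
      rad_pow hd, pow_add, pow_mul] at h6
    have h9 : (4 : ℝ) ^ (d ^ j) ≤ (‖x‖⁻¹ ^ (d ^ n)) ^ (d ^ j) :=
      pow_le_pow_left₀ (by norm_num) hn.le _
    have h10 : (0 : ℝ) < 4 ^ (d ^ j) := by positivity
    rw [inv_pow, inv_pow] at h9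
    norm_num at h6
    linarith
  · -- order
    intro n
    refine ⟨(MM d n + 1) * 2 ^ (d ^ (n + 1) - 1), fun x hx => ?_⟩
    have hx1 : x ∈ ball (0 : ℂ) 1 := ball_subset_ball (by norm_num) hx
    have h1 : ∀ n, Tendsto (fun m => BB d (g m) n (rad d m * x)) 𝒰 (𝓝 (BB d β n x)) := by
      intro n
      induction n with
      | zero => exact hpt x hx1
      | succ n ih =>
        have h2 : Tendsto (fun m => (rad d m : ℂ) * x) 𝒰 (𝓝 (1 * x)) := hrt.mul_const x
        rw [one_mul] at h2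
        exact (ih.pow d).add ((h2.pow _).mul (hpt x hx1))
    refine le_of_tendsto ((h1 n).sub_const 1).norm ?_
    filter_upwards [hle (eventually_ge_atTop n)] with m hm
    have h3 : ‖(rad d m : ℂ) * x‖ ≤ ‖x‖ := by
      rw [norm_mul, Complex.norm_real, Real.norm_eq_abs, abs_of_pos (hr0 _)]
      nlinarith [hr1 m, norm_nonneg x]
    have h4 : (rad d m : ℂ) * x ∈ ball (0 : ℂ) (1 / 2) := by
      rw [mem_ball_zero_iff] at hx ⊢
      linarith
    refine (BB_unif hd (hg m) hm h4).trans ?_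
    have := MM_nonneg d n
    gcongr

end Pool.Agent.H713R2
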