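import Mathlib
import Pool.Agent.H713R2.Ext2
import Pool.Agent.H713R2.TC

set_option autoImplicit false

open Complex Set Topology Filter Metric N62a1eb23

namespace Pool.Agent.H713R2

open Pool.Agent.H712R2

theorem tc_sub {F G : ℂ → ℂ} {r : ℝ} (hr : 0 < r) (hF : DifferentiableOn ℂ F (ball 0 r))
    (hG : DifferentiableOn ℂ G (ball 0 r)) (k : ℕ) :
    tc (fun x => F x - G x) k = tc F k - tc G k := by
  have h := tc_unique (a := fun k => tc F k - tc G k) (F := fun x => F x - G x) hr (hF.sub hG) ?_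
  · rw [← h]
  · filter_upwards [ball_mem_nhds (0 : ℂ) hr] with x hx
    simpa only [sub_mul] using (hasSum_tc hF hx).sub (hasSum_tc hG hx)

theorem tc_add {F G : ℂ → ℂ} {r : ℝ} (hr : 0 < r) (hF : DifferentiableOn ℂ F (ball 0 r))
    (hG : DifferentiableOn ℂ G (ball 0 r)) (k : ℕ) :
    tc (fun x => F x + G x) k = tc F k + tc G k := by
  have h := tc_unique (a := fun k => tc F k + tc G k) (F := fun x => F x + G x) hr (hF.add hG) ?_
  · rw [← h]
  · filter_upwards [ball_mem_nhds (0 : ℂ) hr] with x hx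
    simpa only [add_mul] using (hasSum_tc hF hx).add (hasSum_tc hG hx)

theorem tc_const_succ (c : ℂ) (k : ℕ) : tc (fun _ => c) (k + 1) = 0 := by
  unfold tc
  rw [iteratedDeriv_const]
  simp

theorem tc_id_mul {F : ℂ → ℂ} {r : ℝ} (hr : 0 < r) (hF : DifferentiableOn ℂ F (ball 0 r)) (k : ℕ) :
    tc (fun x => x * F x) (k + 1) = tc F k := by
  have h1 := circleIntegral_tc (r := r / 2) (by linarith) (by linarith) hF k
  have hd2 : DifferentiableOn ℂ (fun x => x * F x) (ball 0 r) := differentiableOn_id.mul hF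
  have h2 := circleIntegral_tc (r := r / 2) (by linarith) (by linarith) hd2 (k + 1)
  have h3 : ∮ z in C(0, r / 2), z * F z / z ^ (k + 1 + 1) =
      ∮ z in C(0, r / 2), F z / z ^ (k + 1) := by
    apply circleIntegral.integral_congr (by linarith)
    intro z hz
    have hz0 : z ≠ 0 := by
      rintro rfl
      rw [mem_sphere_zero_iff_norm, norm_zero] at hz
      linarith
    simp only
    rw [pow_succ z (k + 1)]
    field_simp
  rw [h1, h2] at h3
  have h4 : (2 * Real.pi * I : ℂ) ≠ 0 := Complex.two_pi_I_ne_zero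
  exact mul_left_cancel₀ h4 h3

/-- Taylor coefficients below the order of vanishing are zero. -/
theorem tc_eq_zero_of_order {F : ℂ → ℂ} {r C : ℝ} {K k : ℕ} (hr : 0 < r) (hk : k < K)
    (hF : DifferentiableOn ℂ F (ball 0 r)) (hb : ∀ x ∈ ball (0 : ℂ) r, ‖F x‖ ≤ C * ‖x‖ ^ K) :
    tc F k = 0 := by
  have h1 : ∀ s ∈ Ioo (0 : ℝ) r, ‖tc F k‖ ≤ C * s ^ (K - k) := by
    intro s hs
    have h2 := Complex.norm_iteratedDeriv_le_of_forall_mem_sphere_norm_le (c := 0) (R := s)
      (C := C * s ^ K) (f := F) k hs.1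
      ((hF.mono (by
        exact (closure_ball_subset_closedBall.trans (closedBall_subset_ball hs.2)))).diffContOnCl)
      (fun z hz => by
        rw [mem_sphere_zero_iff_norm] at hz
        have := hb z (by rw [mem_ball_zero_iff, hz]; exact hs.2)
        rwa [hz] at this)
    unfold tc
    rw [norm_mul, norm_inv, Complex.norm_natCast]
    have h3 : (0 : ℝ) < k.factorial := by exact_mod_cast k.factorial_pos
    rw [inv_mul_le_iff₀ h3]
    refine h2.trans_eq ?_
    have h4 : s ^ K = s ^ (K - k) * s ^ k := by rw [← pow_add]; congr 1; omega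
    rw [h4]
    have h5 : s ^ k ≠ 0 := pow_ne_zero _ hs.1.ne'
    field_simp
  have h2 : Tendsto (fun s : ℝ => C * s ^ (K - k)) (𝓝[>] 0) (𝓝 (C * 0 ^ (K - k))) := by
    have : Continuous (fun s : ℝ => C * s ^ (K - k)) := by fun_prop
    exact (this.tendsto 0).mono_left nhdsWithin_le_nhds
  rw [zero_pow (by omega), mul_zero] at h2
  have h3 : ‖tc F k‖ ≤ 0 := by
    refine ge_of_tendsto h2 ?_
    filter_upwards [Ioo_mem_nhdsGT hr] with s hs using h1 s hs
  exact norm_le_zero_iff.mp h3

theorem exists_antideriv (Q : Polynomial ℂ) : ∃ R : Polynomial ℂ, R.derivative = Q := by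
  induction Q using Polynomial.induction_on' with
  | add p q hp hq =>
    obtain ⟨R1, h1⟩ := hp
    obtain ⟨R2, h2⟩ := hq
    exact ⟨R1 + R2, by rw [Polynomial.derivative_add, h1, h2]⟩
  | monomial n a =>
    refine ⟨Polynomial.monomial (n + 1) (a / (n + 1)), ?_⟩
    rw [Polynomial.derivative_monomial]
    have : ((n : ℂ) + 1) ≠ 0 := by exact_mod_cast Nat.succ_ne_zero n
    simp only [Nat.add_sub_cancel]
    congr 1
    push_cast
    field_simp

/-- The function `h = β - t x`. -/
noncomputable def hh (β : ℂ → ℂ) (t : ℂ) : ℂ → ℂ := fun x => β x - t * x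

theorem hh_ne {d : ℕ} {β : ℂ → ℂ} (hβ : IsBeta d β) {t : ℂ} (ht : t ∈ multibrotSet d) {x : ℂ}
    (hx : x ∈ ball (0 : ℂ) 1) : hh β t x ≠ 0 := by
  intro h
  unfold hh at h
  by_cases hx0 : x = 0
  · subst hx0
    rw [hβ.zero] at h
    simp at h
  · apply hβ.notMem x hx hx0
    have : x⁻¹ * β x = t := by
      have h1 : β x = t * x := by linear_combination h
      rw [h1]
      field_simp
    rwa [this]

theorem hh_diff {d : ℕ} {β : ℂ → ℂ} (hβ : IsBeta d β) (t : ℂ) :
    DifferentiableOn ℂ (hh β t) (ball 0 1) := by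
  unfold hh
  exact hβ.diff.sub (by fun_prop)

/-- The logarithmic derivative of `h`. -/
noncomputable def LL (β : ℂ → ℂ) (t : ℂ) : ℂ → ℂ := fun x => deriv (hh β t) x * (hh β t x)⁻¹

theorem LL_diff {d : ℕ} {β : ℂ → ℂ} (hβ : IsBeta d β) {t : ℂ} (ht : t ∈ multibrotSet d) :
    DifferentiableOn ℂ (LL β t) (ball 0 1) := by
  unfold LL
  exact ((hh_diff hβ t).deriv isOpen_ball).mul ((hh_diff hβ t).inv fun x hx => hh_ne hβ ht hx)

theorem coef_identity {d : ℕ} (hd : 2 ≤ d) {β : ℂ → ℂ} (hβ : IsBeta d β) {t : ℂ}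
    (ht : t ∈ multibrotSet d) {n : ℕ} (hn : 1 ≤ n) :
    tc (LL β t) (d ^ n - 1) = - P d (n + 1) t := by
  set m : ℕ := d ^ n with hm
  have hm2 : 2 ≤ m := by
    calc 2 ≤ d := hd
      _ = d ^ 1 := (pow_one d).symm
      _ ≤ d ^ n := Nat.pow_le_pow_right (by omega) hn
  have hK : m + 1 ≤ d ^ (n + 1) - 1 := by
    have : 2 * m ≤ d ^ (n + 1) := by
      rw [pow_succ, ← hm, mul_comm]
      exact Nat.mul_le_mul_left m hd
    omega
  have hL := LL_diff hβ ht
  set W : ℂ → ℂ := fun x => x * LL β t x - 1 with hW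
  have hxL : DifferentiableOn ℂ (fun x => x * LL β t x) (ball 0 1) := differentiableOn_id.mul hL
  have hWd : DifferentiableOn ℂ W (ball 0 1) := hxL.sub (differentiableOn_const _)
  have hBd : DifferentiableOn ℂ (BB d β n) (ball 0 1) := BB_diff hβ.diff n
  -- the polynomial identity
  set pt : Polynomial ℂ := PP d (n + 1) - Polynomial.C ((PP d (n + 1)).eval t) with hpt
  have hroot : pt.IsRoot t := by simp [hpt, Polynomial.IsRoot.def]
  obtain ⟨Q, hQ⟩ := Polynomial.dvd_iff_isRoot.mpr hroot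
  obtain ⟨R, hR⟩ := exists_antideriv Q
  have hQe : ∀ c, P d (n + 1) c - P d (n + 1) t = (c - t) * Q.eval c := by
    intro c
    have := congrArg (Polynomial.eval c) hQ
    simpa [hpt, eval_PP] using this
  -- the curve
  have hr : (0 : ℝ) < 1 / 4 := by norm_num
  have hcurve : ∮ z in C(0, 1 / 4), Q.eval (z⁻¹ * β z) * ((z⁻¹ * β z - t) * (W z / z)) = 0 := by
    apply circleIntegral.integral_eq_zero_of_hasDerivWithinAt (f := fun z => R.eval (z⁻¹ * β z))
      hr.le
    intro z hz
    have hzn : ‖z‖ = 1 / 4 := mem_sphere_zero_iff_norm.mp hz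
    have hz0 : z ≠ 0 := by
      rintro rfl
      rw [norm_zero] at hzn
      norm_num at hzn
    have hzb : z ∈ ball (0 : ℂ) 1 := by rw [mem_ball_zero_iff, hzn]; norm_num
    have hβz : HasDerivAt β (deriv β z) z :=
      (hβ.diff.differentiableAt (isOpen_ball.mem_nhds hzb)).hasDerivAt
    have h1 : HasDerivAt (fun z => z⁻¹ * β z) (-(z ^ 2)⁻¹ * β z + z⁻¹ * deriv β z) z :=
      (hasDerivAt_inv hz0).mul hβz
    have h2 : HasDerivAt (fun c => R.eval c) (R.derivative.eval (z⁻¹ * β z)) (z⁻¹ * β z) :=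
      R.hasDerivAt _
    have h3 := h2.comp z h1
    rw [hR] at h3
    refine HasDerivAt.hasDerivWithinAt ?_
    suffices hval : (z⁻¹ * β z - t) * (W z / z) = -(z ^ 2)⁻¹ * β z + z⁻¹ * deriv β z by
      rw [hval]
      exact h3
    have hne := hh_ne hβ ht hzb
    have hdh : deriv (hh β t) z = deriv β z - t := by
      have : HasDerivAt (hh β t) (deriv β z - t * 1) z := hβz.sub ((hasDerivAt_id z).const_mul t)
      rw [this.deriv, mul_one]
    have hWz : W z = z * ((deriv β z - t) * (hh β t z)⁻¹) - 1 := by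
      simp only [hW]
      unfold LL
      rw [hdh]
    rw [hWz]
    have h4 : z⁻¹ * β z - t = z⁻¹ * hh β t z := by
      unfold hh
      field_simp
    rw [h4]
    have h5 : z⁻¹ * hh β t z * ((z * ((deriv β z - t) * (hh β t z)⁻¹) - 1) / z) =
        z⁻¹ * ((deriv β z - t) - hh β t z / z) := by
      field_simp
    rw [h5]
    unfold hh
    field_simp
    ring
  -- rewrite the integrand
  have hcongr : ∮ z in C(0, 1 / 4), Q.eval (z⁻¹ * β z) * ((z⁻¹ * β z - t) * (W z / z)) =
      ∮ z in C(0, 1 / 4), ((fun x => (BB d β n x - 1) * W x + W x) z / z ^ (m + 1)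
        - P d (n + 1) t * (W z / z ^ (0 + 1))) := by
    apply circleIntegral.integral_congr hr.le
    intro z hz
    have hzn : ‖z‖ = 1 / 4 := mem_sphere_zero_iff_norm.mp hz
    have hz0 : z ≠ 0 := by
      rintro rfl
      rw [norm_zero] at hzn
      norm_num at hzn
    beta_reduce
    rw [BB_eq hd β n z hz0, ← hm, zero_add, pow_one]
    have h1 := hQe (z⁻¹ * β z)
    have h2 : Q.eval (z⁻¹ * β z) * ((z⁻¹ * β z - t) * (W z / z)) =
        (P d (n + 1) (z⁻¹ * β z) - P d (n + 1) t) * (W z / z) := by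
      rw [h1]; ring
    rw [h2, pow_succ]
    have hzm : z ^ m ≠ 0 := pow_ne_zero _ hz0
    field_simp
    ring
  have hF1d : DifferentiableOn ℂ (fun x => (BB d β n x - 1) * W x) (ball 0 1) :=
    (hBd.sub (differentiableOn_const _)).mul hWd
  have hF2d : DifferentiableOn ℂ (fun x => (BB d β n x - 1) * W x + W x) (ball 0 1) := hF1d.add hWd
  have hsph : sphere (0 : ℂ) (1 / 4) ⊆ ball 0 1 := by
    intro z hz
    rw [mem_sphere_zero_iff_norm] at hz
    rw [mem_ball_zero_iff, hz]; norm_num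
  have hsph0 : ∀ z ∈ sphere (0 : ℂ) (1 / 4), z ≠ 0 := by
    rintro z hz rfl
    rw [mem_sphere_zero_iff_norm, norm_zero] at hz
    norm_num at hz
  have hI1 : CircleIntegrable (fun z => (fun x => (BB d β n x - 1) * W x + W x) z / z ^ (m + 1))
      0 (1 / 4) := by
    apply ContinuousOn.circleIntegrable hr.le
    apply ContinuousOn.div (hF2d.continuousOn.mono hsph) (by fun_prop)
    intro z hz
    exact pow_ne_zero _ (hsph0 z hz)
  have hI2 : CircleIntegrable (fun z => P d (n + 1) t * (W z / z ^ (0 + 1))) 0 (1 / 4) := by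
    apply ContinuousOn.circleIntegrable hr.le
    apply ContinuousOn.mul continuousOn_const
    apply ContinuousOn.div (hWd.continuousOn.mono hsph) (by fun_prop)
    intro z hz
    exact pow_ne_zero _ (hsph0 z hz)
  rw [hcongr, circleIntegral.integral_sub hI1 hI2, circleIntegral.integral_const_mul,
    circleIntegral_tc hr (by norm_num) hF2d m, circleIntegral_tc hr (by norm_num) hWd 0] at hcurve
  have hW0 : tc W 0 = -1 := by rw [tc_zero]; simp [hW]
  have hWm : tc W m = tc (LL β t) (m - 1) := by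
    obtain ⟨k, hk⟩ := Nat.exists_eq_add_of_le' (show 1 ≤ m by omega)
    rw [hk, Nat.add_sub_cancel]
    have := tc_sub one_pos hxL (differentiableOn_const (c := (1 : ℂ))) (k + 1)
    rw [tc_const_succ, sub_zero, tc_id_mul one_pos hL] at this
    exact this
  have hF1m : tc (fun x => (BB d β n x - 1) * W x) m = 0 := by
    obtain ⟨C, hC⟩ := hβ.order n
    obtain ⟨CW, hCW⟩ : ∃ CW, ∀ x ∈ closedBall (0 : ℂ) (1 / 2), ‖W x‖ ≤ CW :=
      (isCompact_closedBall (0 : ℂ) (1 / 2)).exists_bound_of_continuousOn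
        (hWd.continuousOn.mono (closedBall_subset_ball (by norm_num)))
    have hsub : ball (0 : ℂ) (1 / 2) ⊆ ball 0 1 := ball_subset_ball (by norm_num)
    apply tc_eq_zero_of_order (r := 1 / 2) (C := C * CW) (K := d ^ (n + 1) - 1) (by norm_num)
      (by omega) (hF1d.mono hsub)
    intro x hx
    rw [norm_mul]
    have h1 := hC x hx
    have h2 := hCW x (ball_subset_closedBall hx)
    calc ‖BB d β n x - 1‖ * ‖W x‖ ≤ (C * ‖x‖ ^ (d ^ (n + 1) - 1)) * CW :=
          mul_le_mul h1 h2 (norm_nonneg _) ((norm_nonneg _).trans h1)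
      _ = C * CW * ‖x‖ ^ (d ^ (n + 1) - 1) := by ring
  have hF2m : tc (fun x => (BB d β n x - 1) * W x + W x) m = tc (LL β t) (m - 1) := by
    rw [tc_add one_pos hF1d hWd, hF1m, zero_add, hWm]
  rw [hF2m, hW0] at hcurve
  have h4 : (2 * Real.pi * I : ℂ) ≠ 0 := Complex.two_pi_I_ne_zero
  have h5 : (2 * Real.pi * I : ℂ) * (tc (LL β t) (m - 1) + P d (n + 1) t) = 0 := by
    linear_combination hcurve
  rcases mul_eq_zero.mp h5 with h6 | h6
  · exact absurd h6 h4
  · linear_combination h6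

end Pool.Agent.H713R2
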