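import Mathlib
import Pool.Agent.H713R2.Ext2
import Pool.Agent.H713R2.TC

set_option autoImplicit false

open Complex Set Topology Filter Metric Bornology N62a1eb23

namespace Pool.Agent.H713R2

open Pool.Agent.H712R2 Pool.Agent.Helper202.Univ

/-- `ψ` is a conformal isomorphism from the exterior of the closed unit disc onto the complement
of `K`, normalised by `ψ z / z → 1` at infinity. -/
structure IsExteriorMap (K : Set ℂ) (ψ : ℂ → ℂ) : Prop where
  diff : DifferentiableOn ℂ ψ {z | 1 < ‖z‖}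
  inj : InjOn ψ {z | 1 < ‖z‖}
  image : ψ '' {z | 1 < ‖z‖} = Kᶜ
  infinity : Tendsto (fun z => ψ z / z) (cobounded ℂ) (𝓝 1)

/-- `b` is the sequence of Laurent coefficients: `ψ z = z + ∑ m, b m / z ^ m` for `‖z‖ > 1`. -/
def HasLaurent (ψ : ℂ → ℂ) (b : ℕ → ℂ) : Prop :=
  ∀ z : ℂ, 1 < ‖z‖ → HasSum (fun m : ℕ => b m / z ^ m) (ψ z - z)

theorem inv_mem_ball {z : ℂ} (hz : 1 < ‖z‖) : z⁻¹ ∈ ball (0 : ℂ) 1 ∧ z⁻¹ ≠ 0 := by
  have h0 : z ≠ 0 := by
    rintro rfl
    rw [norm_zero] at hz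
    linarith
  refine ⟨?_, inv_ne_zero h0⟩
  rw [mem_ball_zero_iff, norm_inv]
  exact inv_lt_one_of_one_lt₀ hz

theorem one_lt_norm_inv {x : ℂ} (hx : x ∈ ball (0 : ℂ) 1) (hx0 : x ≠ 0) : 1 < ‖x⁻¹‖ := by
  rw [norm_inv, one_lt_inv₀ (norm_pos_iff.mpr hx0)]
  exact mem_ball_zero_iff.mp hx

theorem tendsto_inv_cob : Tendsto (fun z : ℂ => z⁻¹) (cobounded ℂ) (𝓝[≠] 0) :=
  tendsto_inv₀_cobounded'

theorem exteriorMap_of_beta {d : ℕ} {β : ℂ → ℂ} (hβ : IsBeta d β) :
    IsExteriorMap (multibrotSet d) (fun z => z * β z⁻¹) := by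
  have hβ0 : ContinuousAt β 0 :=
    (hβ.diff.differentiableAt (ball_mem_nhds 0 one_pos)).continuousAt
  refine ⟨?_, ?_, ?_, ?_⟩
  · intro z hz
    obtain ⟨h1, h2⟩ := inv_mem_ball hz
    have hz0 : z ≠ 0 := fun h => h2 (by rw [h, inv_zero])
    apply DifferentiableAt.differentiableWithinAt
    have h3 : DifferentiableAt ℂ β z⁻¹ := hβ.diff.differentiableAt (isOpen_ball.mem_nhds h1)
    exact differentiableAt_id.mul (h3.comp z (differentiableAt_inv_iff.mpr hz0))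
  · intro z hz w hw h
    obtain ⟨h1, h2⟩ := inv_mem_ball hz
    obtain ⟨h3, h4⟩ := inv_mem_ball hw
    have h5 := hβ.inj z⁻¹ h1 w⁻¹ h3 h2 h4 (by rw [inv_inv, inv_inv]; exact h)
    exact inv_injective h5
  · ext c
    constructor
    · rintro ⟨z, hz, rfl⟩
      obtain ⟨h1, h2⟩ := inv_mem_ball hz
      have := hβ.notMem z⁻¹ h1 h2
      rwa [inv_inv] at this
    · intro hc
      obtain ⟨x, hx, hx0, hxc⟩ := hβ.surj c hc
      refine ⟨x⁻¹, one_lt_norm_inv hx hx0, ?_⟩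
      simp only [inv_inv]
      exact hxc
  · have h1 : Tendsto (fun z : ℂ => β z⁻¹) (cobounded ℂ) (𝓝 1) := by
      rw [← hβ.zero]
      exact hβ0.tendsto.comp (tendsto_inv_cob.mono_right nhdsWithin_le_nhds)
    refine h1.congr' ?_
    filter_upwards [eventually_ne_cobounded (0 : ℂ)] with z hz
    field_simp

theorem laurent_of_beta {d : ℕ} {β : ℂ → ℂ} (hβ : IsBeta d β) :
    HasLaurent (fun z => z * β z⁻¹) (fun m => tc β (m + 1)) := by
  intro z hz
  obtain ⟨h1, h2⟩ := inv_mem_ball hz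
  have hz0 : z ≠ 0 := fun h => h2 (by rw [h, inv_zero])
  have h3 := hasSum_tc hβ.diff h1
  rw [← hasSum_nat_add_iff' 1] at h3
  simp only [Finset.range_one, Finset.sum_singleton, pow_zero, mul_one] at h3
  rw [tc_zero, hβ.zero] at h3
  have h4 := h3.mul_left z
  have h5 : z * (β z⁻¹ - 1) = z * β z⁻¹ - z := by ring
  rw [h5] at h4
  have h6 : (fun m : ℕ => tc β (m + 1) / z ^ m) = fun m => z * (tc β (m + 1) * z⁻¹ ^ (m + 1)) := by
    funext m
    rw [inv_pow, pow_succ]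
    field_simp
  rw [h6]
  exact h4

/-- Uniqueness of the exterior map. -/
theorem exteriorMap_unique {d : ℕ} {β : ℂ → ℂ} (hβ : IsBeta d β) {ψ : ℂ → ℂ}
    (hψ : IsExteriorMap (multibrotSet d) ψ) {z : ℂ} (hz : 1 < ‖z‖) : ψ z = z * β z⁻¹ := by
  set D : Set ℂ := ball 0 1 \ {0} with hD
  have hDo : IsOpen D := isOpen_ball.sdiff isClosed_singleton
  set f : ℂ → ℂ := fun x => x⁻¹ * β x with hf
  have hfd : DifferentiableOn ℂ f D := by
    intro x hx
    have hx0 : x ≠ 0 := hx.2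
    apply DifferentiableAt.differentiableWithinAt
    exact (differentiableAt_inv_iff.mpr hx0).mul
      (hβ.diff.differentiableAt (isOpen_ball.mem_nhds hx.1))
  have hfi : InjOn f D := fun x hx y hy h => hβ.inj x hx.1 y hy.1 hx.2 hy.2 h
  have hfim : f '' D = (multibrotSet d)ᶜ := by
    ext c
    constructor
    · rintro ⟨x, hx, rfl⟩
      exact hβ.notMem x hx.1 hx.2
    · intro hc
      obtain ⟨x, hx, hx0, hxc⟩ := hβ.surj c hc
      exact ⟨x, ⟨hx, hx0⟩, hxc⟩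
  -- the transition map
  have hmem : ∀ x ∈ D, ψ x⁻¹ ∈ f '' D := by
    intro x hx
    rw [hfim, ← hψ.image]
    exact mem_image_of_mem ψ (one_lt_norm_inv hx.1 hx.2)
  set φ : ℂ → ℂ := fun x => Function.invFunOn f D (ψ x⁻¹) with hφ
  have hφm : ∀ x ∈ D, φ x ∈ D := fun x hx => invFunOn_mem (hmem x hx)
  have hφr : ∀ x ∈ D, f (φ x) = ψ x⁻¹ := fun x hx => invFunOn_right (hmem x hx)
  have hext : IsOpen {z : ℂ | 1 < ‖z‖} := isOpen_lt continuous_const continuous_norm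
  have hφd : DifferentiableOn ℂ φ D := by
    intro x hx
    have hx0 : x ≠ 0 := hx.2
    apply DifferentiableAt.differentiableWithinAt
    have h1 : DifferentiableAt ℂ (Function.invFunOn f D) (ψ x⁻¹) :=
      differentiableAt_inv hDo hfd hfi (hmem x hx)
    have h2 : DifferentiableAt ℂ ψ x⁻¹ :=
      hψ.diff.differentiableAt (hext.mem_nhds (one_lt_norm_inv hx.1 hx.2))
    exact h1.comp x (h2.comp x (differentiableAt_inv_iff.mpr hx0))
  obtain ⟨Φ, hΦd, hΦe⟩ := removable one_pos hφd (C := 1) (fun x hx hx0 =>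
    (mem_ball_zero_iff.mp (hφm x ⟨hx, hx0⟩).1).le)
  have hΦc : ContinuousAt Φ 0 := (hΦd.differentiableAt (ball_mem_nhds 0 one_pos)).continuousAt
  have hpunct : ∀ᶠ x in 𝓝[≠] (0 : ℂ), x ∈ D := by
    filter_upwards [self_mem_nhdsWithin, mem_nhdsWithin_of_mem_nhds (ball_mem_nhds 0 one_pos)]
      with x h3 h4
    exact ⟨h4, h3⟩
  -- behaviour of `x ψ (1/x)`
  have hxψ : Tendsto (fun x : ℂ => x * ψ x⁻¹) (𝓝[≠] 0) (𝓝 1) := by
    have h1 : Tendsto (fun x : ℂ => ψ x⁻¹ / x⁻¹) (𝓝[≠] 0) (𝓝 1) :=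
      hψ.infinity.comp tendsto_inv₀_nhdsNE_zero
    refine h1.congr fun x => ?_
    rw [div_inv_eq_mul, mul_comm]
  have hφβ : ∀ x ∈ D, φ x * (x * ψ x⁻¹) = x * β (φ x) := by
    intro x hx
    rw [← hφr x hx]
    have h1 : φ x ≠ 0 := (hφm x hx).2
    simp only [hf]
    field_simp
  have hφ0 : Tendsto φ (𝓝[≠] 0) (𝓝 0) := by
    have h1 : Tendsto (fun x : ℂ => x * β (φ x)) (𝓝[≠] 0) (𝓝 0) := by
      apply squeeze_zero_norm' (a := fun x : ℂ => ‖x‖ * 2)
      · filter_upwards [hpunct] with x hx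
        rw [norm_mul]
        exact mul_le_mul_of_nonneg_left (hβ.bound _ (hφm x hx).1) (norm_nonneg _)
      · have : Tendsto (fun x : ℂ => ‖x‖ * 2) (𝓝 0) (𝓝 (‖(0 : ℂ)‖ * 2)) :=
          (continuous_norm.mul continuous_const).tendsto 0
        rw [norm_zero, zero_mul] at this
        exact this.mono_left nhdsWithin_le_nhds
    have h2 := h1.div hxψ one_ne_zero
    rw [zero_div] at h2
    refine h2.congr' ?_
    filter_upwards [hpunct, hxψ.eventually_ne one_ne_zero] with x hx hx1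
    change x * β (φ x) / (x * ψ x⁻¹) = φ x
    rw [← hφβ x hx, mul_div_assoc, div_self hx1, mul_one]
  have hΦ0 : Φ 0 = 0 := by
    refine tendsto_nhds_unique (hΦc.tendsto.mono_left nhdsWithin_le_nhds) (hφ0.congr' ?_)
    filter_upwards [self_mem_nhdsWithin] with x hx
    exact (hΦe x hx).symm
  have hslope : Tendsto (fun x : ℂ => φ x / x) (𝓝[≠] 0) (𝓝 1) := by
    have hβ0 : ContinuousAt β 0 :=
      (hβ.diff.differentiableAt (ball_mem_nhds 0 one_pos)).continuousAt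
    have h1 : Tendsto (fun x : ℂ => β (φ x)) (𝓝[≠] 0) (𝓝 1) := by
      rw [← hβ.zero]
      exact hβ0.tendsto.comp hφ0
    have h2 := h1.div hxψ one_ne_zero
    rw [div_one] at h2
    refine h2.congr' ?_
    filter_upwards [hpunct, hxψ.eventually_ne one_ne_zero] with x hx hx1
    have hx0 : x ≠ 0 := hx.2
    have h3 := hφβ x hx
    change β (φ x) / (x * ψ x⁻¹) = φ x / x
    rw [div_eq_div_iff hx1 hx0]
    linear_combination -h3
  have hderiv : HasDerivAt Φ 1 0 := by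
    rw [hasDerivAt_iff_tendsto_slope]
    refine hslope.congr' ?_
    filter_upwards [self_mem_nhdsWithin] with x hx
    rw [slope_def_field, hΦ0, hΦe x hx, sub_zero, sub_zero]
  have hmaps : MapsTo Φ (ball 0 1) (closedBall (Φ 0) 1) := by
    intro x hx
    rw [hΦ0, mem_closedBall_zero_iff]
    by_cases hx0 : x = 0
    · rw [hx0, hΦ0, norm_zero]; norm_num
    · rw [hΦe x hx0]
      exact (mem_ball_zero_iff.mp (hφm x ⟨hx, hx0⟩).1).le
  have haff := affine_of_mapsTo_ball_of_norm_dslope_eq_div hΦd hmaps (mem_ball_self one_pos)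
    (by rw [dslope_same, hderiv.deriv]; norm_num)
  obtain ⟨h1, h2⟩ := inv_mem_ball hz
  have h3 := haff h1
  simp only [hΦ0, dslope_same, hderiv.deriv, zero_add, sub_zero, smul_eq_mul, mul_one] at h3
  rw [hΦe _ h2] at h3
  have h4 := hφr z⁻¹ ⟨h1, h2⟩
  rw [h3, inv_inv] at h4
  rw [← h4]
  simp only [hf, inv_inv]

end Pool.Agent.H713R2
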