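import Mathlib

set_option autoImplicit false

open Topology Filter

namespace Pool.Agent.H713R2

/-- Low frequencies do not contribute. -/
theorem low_part {A U : ℕ → ℝ} (hA : ∀ l, 0 ≤ A l) (hU : ∀ j, 0 ≤ U j)
    (hSA : Summable (fun l : ℕ => (l : ℝ) * A l ^ 2))
    (hSU : Summable (fun j : ℕ => ((j : ℝ) + 1) * U j ^ 2)) {d : ℕ} (hd : 2 ≤ d) :
    Tendsto (fun n : ℕ => ∑ l ∈ Finset.Icc 1 (d ^ n), (l : ℝ) * A l * U (d ^ (n + 1) - l))
      atTop (𝓝 0) := by
  set w : ℕ → ℝ := fun j => ((j : ℝ) + 1) * U j ^ 2 with hw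
  have hw0 : ∀ j, 0 ≤ w j := fun j => by simp only [hw]; positivity
  set D : ℝ := ∑' l : ℕ, (l : ℝ) * A l ^ 2 with hD
  have hD0 : 0 ≤ D := tsum_nonneg fun l => by positivity
  have htail : Tendsto (fun n : ℕ => ∑' k, w (k + d ^ n)) atTop (𝓝 0) :=
    (tendsto_sum_nat_add w).comp (tendsto_pow_atTop_atTop_of_one_lt (by omega))
  -- the quantitative bound
  have hb : ∀ n : ℕ, (∑ l ∈ Finset.Icc 1 (d ^ n), (l : ℝ) * A l * U (d ^ (n + 1) - l)) ^ 2 ≤
      D * ∑' k, w (k + d ^ n) := by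
    intro n
    set L : ℕ := d ^ n with hL
    have hL1 : 1 ≤ L := Nat.one_le_pow _ _ (by omega)
    set m : ℕ := d ^ (n + 1) with hm
    have hmL : 2 * L ≤ m := by
      rw [hm, pow_succ, ← hL, mul_comm]
      exact Nat.mul_le_mul_left L hd
    have h1 := Finset.sum_mul_sq_le_sq_mul_sq (Finset.Icc 1 L) (fun l : ℕ => (l : ℝ) * A l)
      (fun l : ℕ => U (m - l))
    have h2 : ∑ l ∈ Finset.Icc 1 L, ((l : ℝ) * A l) ^ 2 ≤ L * D := by
      have h3 : ∑ l ∈ Finset.Icc 1 L, ((l : ℝ) * A l ^ 2) ≤ D :=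
        hSA.sum_le_tsum _ (fun l _ => by positivity)
      calc ∑ l ∈ Finset.Icc 1 L, ((l : ℝ) * A l) ^ 2
          ≤ ∑ l ∈ Finset.Icc 1 L, L * ((l : ℝ) * A l ^ 2) := by
            apply Finset.sum_le_sum
            intro l hl
            have h4 : (l : ℝ) ≤ L := by exact_mod_cast (Finset.mem_Icc.mp hl).2
            have h5 : (0 : ℝ) ≤ l * A l ^ 2 := by positivity
            nlinarith
        _ = L * ∑ l ∈ Finset.Icc 1 L, ((l : ℝ) * A l ^ 2) := by rw [Finset.mul_sum]
        _ ≤ L * D := mul_le_mul_of_nonneg_left h3 (by positivity)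
    have h3 : (L : ℝ) * ∑ l ∈ Finset.Icc 1 L, U (m - l) ^ 2 ≤ ∑' k, w (k + L) := by
      have h4 : (L : ℝ) * ∑ l ∈ Finset.Icc 1 L, U (m - l) ^ 2 ≤ ∑ l ∈ Finset.Icc 1 L, w (m - l) := by
        rw [Finset.mul_sum]
        apply Finset.sum_le_sum
        intro l hl
        have hl2 := (Finset.mem_Icc.mp hl).2
        simp only [hw]
        apply mul_le_mul_of_nonneg_right _ (by positivity)
        have : L ≤ m - l := by omega
        have : (L : ℝ) ≤ ((m - l : ℕ) : ℝ) := by exact_mod_cast this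
        linarith
      have h5 : ∑ l ∈ Finset.Icc 1 L, w (m - l) = ∑ k ∈ Finset.Icc (m - 2 * L) (m - L - 1), w (k + L) := by
        apply Finset.sum_nbij' (fun l => m - l - L) (fun k => m - L - k)
        · intro l hl
          rw [Finset.mem_Icc] at hl ⊢
          omega
        · intro k hk
          rw [Finset.mem_Icc] at hk ⊢
          omega
        · intro l hl
          rw [Finset.mem_Icc] at hl
          omega
        · intro k hk
          rw [Finset.mem_Icc] at hk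
          omega
        · intro l hl
          rw [Finset.mem_Icc] at hl
          congr 1
          omega
      rw [h5] at h4
      refine h4.trans ?_
      exact ((summable_nat_add_iff L).mpr hSU).sum_le_tsum _ (fun k _ => hw0 _)
    have h6 : 0 ≤ ∑ l ∈ Finset.Icc 1 L, U (m - l) ^ 2 := Finset.sum_nonneg fun l _ => by positivity
    calc (∑ l ∈ Finset.Icc 1 L, (l : ℝ) * A l * U (m - l)) ^ 2
        ≤ (∑ l ∈ Finset.Icc 1 L, ((l : ℝ) * A l) ^ 2) * ∑ l ∈ Finset.Icc 1 L, U (m - l) ^ 2 := h1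
      _ ≤ (L * D) * ∑ l ∈ Finset.Icc 1 L, U (m - l) ^ 2 := mul_le_mul_of_nonneg_right h2 h6
      _ = D * (L * ∑ l ∈ Finset.Icc 1 L, U (m - l) ^ 2) := by ring
      _ ≤ D * ∑' k, w (k + L) := mul_le_mul_of_nonneg_left h3 hD0
  have h7 : Tendsto (fun n : ℕ => Real.sqrt (D * ∑' k, w (k + d ^ n))) atTop (𝓝 0) := by
    have := (htail.const_mul D).sqrt
    simpa using this
  refine squeeze_zero (fun n => ?_) (fun n => ?_) h7
  · exact Finset.sum_nonneg fun l _ => by
      have := hA l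
      have := hU (d ^ (n + 1) - l)
      positivity
  · exact Real.le_sqrt_of_sq_le (hb n)

theorem sum_inv_le (J : ℕ) : ∑ j ∈ Finset.range J, ((j : ℝ) + 1)⁻¹ ≤ 1 + Real.log J := by
  have h := harmonic_le_one_add_log J
  rw [harmonic] at h
  push_cast at h
  exact h

/-- Partial sums of coefficients with finite Dirichlet integral are `o(√ log)`. -/
theorem partial_sums {U : ℕ → ℝ} (hU : ∀ j, 0 ≤ U j)
    (hSU : Summable (fun j : ℕ => ((j : ℝ) + 1) * U j ^ 2)) {ε : ℝ} (hε : 0 < ε) :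
    ∃ C, 0 ≤ C ∧ ∀ J : ℕ, 1 ≤ J → ∑ j ∈ Finset.range J, U j ≤ C + ε * Real.sqrt (1 + Real.log J) := by
  set w : ℕ → ℝ := fun j => ((j : ℝ) + 1) * U j ^ 2 with hw
  have hw0 : ∀ j, 0 ≤ w j := fun j => by simp only [hw]; positivity
  obtain ⟨J0, hJ0⟩ : ∃ J0 : ℕ, ∑' k, w (k + J0) < ε ^ 2 :=
    ((tendsto_sum_nat_add w).eventually (gt_mem_nhds (by positivity))).exists
  refine ⟨∑ j ∈ Finset.range J0, U j, Finset.sum_nonneg fun j _ => hU j, fun J hJ => ?_⟩
  have hlog : 0 ≤ Real.log J := Real.log_nonneg (by exact_mod_cast hJ)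
  have h1 : ∑ j ∈ Finset.range J, U j ≤ ∑ j ∈ Finset.range J0, U j +
      ∑ j ∈ (Finset.range J) \ (Finset.range J0), U j := by
    rw [← Finset.sum_union (Finset.disjoint_sdiff)]
    apply Finset.sum_le_sum_of_subset_of_nonneg _ fun j _ _ => hU j
    intro j hj
    by_cases h : j ∈ Finset.range J0
    · exact Finset.mem_union_left _ h
    · exact Finset.mem_union_right _ (Finset.mem_sdiff.mpr ⟨hj, h⟩)
  refine h1.trans (add_le_add_right ?_ _)
  set S := (Finset.range J) \ (Finset.range J0) with hS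
  have h2 : (∑ j ∈ S, U j) ^ 2 ≤ (∑ j ∈ S, w j) * ∑ j ∈ S, ((j : ℝ) + 1)⁻¹ := by
    have h3 := Finset.sum_mul_sq_le_sq_mul_sq S (fun j : ℕ => Real.sqrt ((j : ℝ) + 1) * U j)
      (fun j : ℕ => Real.sqrt (((j : ℝ) + 1)⁻¹))
    have h4 : ∀ j ∈ S, Real.sqrt ((j : ℝ) + 1) * U j * Real.sqrt (((j : ℝ) + 1)⁻¹) = U j := by
      intro j _
      have h5 : (0 : ℝ) < (j : ℝ) + 1 := by positivity
      rw [mul_right_comm, ← Real.sqrt_mul h5.le, mul_inv_cancel₀ h5.ne', Real.sqrt_one, one_mul]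
    have h5 : ∀ j ∈ S, (Real.sqrt ((j : ℝ) + 1) * U j) ^ 2 = w j := by
      intro j _
      rw [mul_pow, Real.sq_sqrt (by positivity)]
    have h6 : ∀ j ∈ S, (Real.sqrt (((j : ℝ) + 1)⁻¹)) ^ 2 = ((j : ℝ) + 1)⁻¹ := by
      intro j _
      rw [Real.sq_sqrt (by positivity)]
    rw [Finset.sum_congr rfl h4, Finset.sum_congr rfl h5, Finset.sum_congr rfl h6] at h3
    exact h3
  have h3 : ∑ j ∈ S, w j ≤ ε ^ 2 := by
    have h4 : ∑ j ∈ S, w j ≤ ∑' k, w (k + J0) := by
      have h5 : ∑ j ∈ S, w j = ∑ k ∈ Finset.range (J - J0), w (k + J0) := by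
        apply Finset.sum_nbij' (fun j => j - J0) (fun k => k + J0)
        · intro j hj
          rw [hS, Finset.mem_sdiff, Finset.mem_range, Finset.mem_range] at hj
          rw [Finset.mem_range]
          omega
        · intro k hk
          rw [Finset.mem_range] at hk
          rw [hS, Finset.mem_sdiff, Finset.mem_range, Finset.mem_range]
          omega
        · intro j hj
          rw [hS, Finset.mem_sdiff, Finset.mem_range, Finset.mem_range] at hj
          omega
        · intro k hk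
          omega
        · intro j hj
          rw [hS, Finset.mem_sdiff, Finset.mem_range, Finset.mem_range] at hj
          congr 1
          omega
      rw [h5]
      exact ((summable_nat_add_iff J0).mpr hSU).sum_le_tsum _ (fun k _ => hw0 _)
    linarith
  have h4 : ∑ j ∈ S, ((j : ℝ) + 1)⁻¹ ≤ 1 + Real.log J := by
    refine le_trans ?_ (sum_inv_le J)
    exact Finset.sum_le_sum_of_subset_of_nonneg Finset.sdiff_subset fun j _ _ => by positivity
  have h5 : 0 ≤ ∑ j ∈ S, ((j : ℝ) + 1)⁻¹ := Finset.sum_nonneg fun j _ => by positivity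
  have h6 : (∑ j ∈ S, U j) ^ 2 ≤ ε ^ 2 * (1 + Real.log J) :=
    h2.trans (mul_le_mul h3 h4 h5 (by positivity))
  have h7 := Real.le_sqrt_of_sq_le h6
  rwa [Real.sqrt_mul (by positivity), Real.sqrt_sq hε.le] at h7

end Pool.Agent.H713R2
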