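import Mathlib
import Pool.Agent.H713R2.Ident
import Pool.Agent.H713R2.Area
import Pool.Agent.H713R2.Seq

set_option autoImplicit false

open Complex Set Topology Filter Metric N62a1eb23

namespace Pool.Agent.H713R2

open Pool.Agent.H712R2

theorem tc_id_mul_deriv {F : ℂ → ℂ} (hF : DifferentiableOn ℂ F (ball 0 1)) (k : ℕ) :
    tc (fun x => x * deriv F x) k = k * tc F k := by
  cases k with
  | zero => rw [tc_zero]; simp
  | succ k =>
    rw [tc_id_mul one_pos (hF.deriv isOpen_ball), tc_deriv]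
    push_cast
    ring

theorem dirichlet_beta {d : ℕ} {β : ℂ → ℂ} (hβ : IsBeta d β) :
    Summable (fun l : ℕ => (l : ℝ) * ‖tc β l‖ ^ 2) := by
  set F : ℂ → ℂ := fun x => x * deriv β x - β x with hF
  have hxd : DifferentiableOn ℂ (fun x => x * deriv β x) (ball 0 1) :=
    differentiableOn_id.mul (hβ.diff.deriv isOpen_ball)
  have hFd : DifferentiableOn ℂ F (ball 0 1) := hxd.sub hβ.diff
  have htc : ∀ k, tc F k = ((k : ℂ) - 1) * tc β k := by
    intro k
    rw [hF, tc_sub one_pos hxd hβ.diff, tc_id_mul_deriv hβ.diff]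
    ring
  have hne : ∀ x : ℂ, 1 / 2 < ‖x‖ → x ≠ 0 := by
    rintro x hx rfl
    rw [norm_zero] at hx
    linarith
  have harea := area_lemma (f := fun x => x⁻¹ * β x) (F := F) (p := 2) (C := 4) (by norm_num) hFd
    (fun x hx1 hx2 => by
      have hx0 := hne x hx1
      have h1 : HasDerivAt β (deriv β x) x :=
        (hβ.diff.differentiableAt (isOpen_ball.mem_nhds (by rwa [mem_ball_zero_iff]))).hasDerivAt
      have h2 := (hasDerivAt_inv hx0).mul h1
      have h3 : F x / x ^ 2 = -(x ^ 2)⁻¹ * β x + x⁻¹ * deriv β x := by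
        change (x * deriv β x - β x) / x ^ 2 = _
        field_simp
        ring
      rw [h3]
      exact h2)
    (fun x hx y hy h => hβ.inj x (by rw [mem_ball_zero_iff]; exact hx.2) y
      (by rw [mem_ball_zero_iff]; exact hy.2) (hne x hx.1) (hne y hy.1) h)
    (fun x hx1 hx2 => by
      rw [norm_mul, norm_inv]
      have h1 := hβ.bound x (by rwa [mem_ball_zero_iff])
      have h2 : ‖x‖⁻¹ ≤ 2 := by
        rw [inv_le_comm₀ (by linarith) (by norm_num)]
        linarith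
      calc ‖x‖⁻¹ * ‖β x‖ ≤ 2 * 2 := mul_le_mul h2 h1 (norm_nonneg _) (by norm_num)
        _ = 4 := by norm_num)
  have hs : Summable (fun k : ℕ => ‖tc F k‖ ^ 2 / ((k : ℝ) + 1)) :=
    summable_of_sum_range_le (fun k => by positivity) harea
  rw [← summable_nat_add_iff 2] at hs ⊢
  refine Summable.of_nonneg_of_le (fun k => by positivity) (fun k => ?_) (hs.mul_left 6)
  rw [htc, norm_mul]
  have h1 : ‖((k + 2 : ℕ) : ℂ) - 1‖ = (k : ℝ) + 1 := by
    have : ((k + 2 : ℕ) : ℂ) - 1 = (((k : ℝ) + 1 : ℝ) : ℂ) := by push_cast; ring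
    rw [this, Complex.norm_real, Real.norm_eq_abs, abs_of_nonneg (by positivity)]
  rw [h1, mul_pow]
  have h2 : (0 : ℝ) ≤ ‖tc β (k + 2)‖ ^ 2 := by positivity
  push_cast
  rw [← mul_div_assoc, le_div_iff₀ (by positivity)]
  have h3 : (0 : ℝ) ≤ k := by positivity
  nlinarith [mul_nonneg h3 h2, mul_nonneg (mul_nonneg h3 h3) h2]

/-- The coefficients of `1 / h`. -/
noncomputable def uu (β : ℂ → ℂ) (t : ℂ) : ℕ → ℂ := tc (fun x => (hh β t x)⁻¹)

theorem dirichlet_u {d : ℕ} {β : ℂ → ℂ} (hβ : IsBeta d β) {t : ℂ} {δ : ℝ} (hδ : 0 < δ)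
    (ht : ball t δ ⊆ multibrotSet d) :
    Summable (fun j : ℕ => ((j : ℝ) + 1) * ‖uu β t j‖ ^ 2) := by
  have htM : t ∈ multibrotSet d := ht (mem_ball_self hδ)
  have hid : DifferentiableOn ℂ (fun x => (hh β t x)⁻¹) (ball 0 1) :=
    (hh_diff hβ t).inv fun x hx => hh_ne hβ htM hx
  have hfd : DifferentiableOn ℂ (fun x => x * (hh β t x)⁻¹) (ball 0 1) :=
    differentiableOn_id.mul hid
  have hFd := hfd.deriv isOpen_ball
  have hne : ∀ x : ℂ, 1 / 2 < ‖x‖ → x ≠ 0 := by
    rintro x hx rfl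
    rw [norm_zero] at hx
    linarith
  have key : ∀ x : ℂ, x ≠ 0 → x * (hh β t x)⁻¹ = (x⁻¹ * β x - t)⁻¹ := by
    intro x hx
    have : hh β t x = x * (x⁻¹ * β x - t) := by
      unfold hh
      field_simp
    rw [this, mul_inv]
    field_simp
  have harea := area_lemma (f := fun x => x * (hh β t x)⁻¹) (F := deriv fun x => x * (hh β t x)⁻¹)
    (p := 0) (C := δ⁻¹) (by positivity) hFd
    (fun x hx1 hx2 => by
      rw [pow_zero, div_one]
      exact (hfd.differentiableAt (isOpen_ball.mem_nhds (by rwa [mem_ball_zero_iff]))).hasDerivAt)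
    (fun x hx y hy h => by
      simp only at h
      rw [key x (hne x hx.1), key y (hne y hy.1)] at h
      have h2 := inv_injective h
      exact hβ.inj x (by rw [mem_ball_zero_iff]; exact hx.2) y
        (by rw [mem_ball_zero_iff]; exact hy.2) (hne x hx.1) (hne y hy.1) (by linear_combination h2))
    (fun x hx1 hx2 => by
      rw [key x (hne x hx1), norm_inv]
      apply inv_anti₀ hδ
      by_contra hlt
      push Not at hlt
      exact hβ.notMem x (by rwa [mem_ball_zero_iff]) (hne x hx1)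
        (ht (by rwa [mem_ball, dist_eq_norm])))
  have hs : Summable (fun k : ℕ => ‖tc (deriv fun x => x * (hh β t x)⁻¹) k‖ ^ 2 / ((k : ℝ) + 1)) :=
    summable_of_sum_range_le (fun k => by positivity) harea
  refine hs.congr fun k => ?_
  rw [tc_deriv, tc_id_mul one_pos hid, norm_mul]
  have h1 : ‖(k : ℂ) + 1‖ = (k : ℝ) + 1 := by
    have : (k : ℂ) + 1 = (((k : ℝ) + 1 : ℝ) : ℂ) := by push_cast; ring
    rw [this, Complex.norm_real, Real.norm_eq_abs, abs_of_nonneg (by positivity)]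
  rw [h1, mul_pow]
  unfold uu
  field_simp

theorem tc_hh {d : ℕ} {β : ℂ → ℂ} (hβ : IsBeta d β) (t : ℂ) {l : ℕ} (hl : 2 ≤ l) :
    tc (hh β t) l = tc β l := by
  have h1 : DifferentiableOn ℂ (fun x : ℂ => t * x) (ball 0 1) := by fun_prop
  have h2 := tc_sub one_pos hβ.diff h1 l
  have h3 : tc (fun x : ℂ => t * x) l = 0 := by
    obtain ⟨k, rfl⟩ := Nat.exists_eq_add_of_le' (show 1 ≤ l by omega)
    have h4 : (fun x : ℂ => t * x) = fun x => x * (fun _ : ℂ => t) x := by funext x; ring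
    rw [h4, tc_id_mul one_pos (differentiableOn_const t)]
    obtain ⟨j, rfl⟩ := Nat.exists_eq_add_of_le' (show 1 ≤ k by omega)
    exact tc_const_succ t j
  rw [h3, sub_zero] at h2
  exact h2

theorem dirichlet_hh {d : ℕ} {β : ℂ → ℂ} (hβ : IsBeta d β) (t : ℂ) :
    Summable (fun l : ℕ => (l : ℝ) * ‖tc (hh β t) l‖ ^ 2) := by
  have h := dirichlet_beta hβ
  rw [← summable_nat_add_iff 2] at h ⊢
  refine h.congr fun k => ?_
  rw [tc_hh hβ t (show 2 ≤ k + 2 by omega)]

/-- The basic inequality. -/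
theorem basic_ineq {d : ℕ} (hd : 2 ≤ d) {β : ℂ → ℂ} (hβ : IsBeta d β) {t : ℂ}
    (ht : t ∈ multibrotSet d) {n : ℕ} (hn : 1 ≤ n) :
    ‖P d (n + 1) t‖ ≤ ∑ l ∈ Finset.Icc 1 (d ^ n), (l : ℝ) * ‖tc (hh β t) l‖ * ‖uu β t (d ^ n - l)‖ := by
  have hid : DifferentiableOn ℂ (fun x => (hh β t x)⁻¹) (ball 0 1) :=
    (hh_diff hβ t).inv fun x hx => hh_ne hβ ht hx
  have h1 := coef_identity hd hβ ht hn
  have h2 : tc (LL β t) (d ^ n - 1) = ∑ p ∈ Finset.HasAntidiagonal.antidiagonal (d ^ n - 1),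
      tc (deriv (hh β t)) p.1 * uu β t p.2 :=
    tc_mul one_pos ((hh_diff hβ t).deriv isOpen_ball) hid _
  have hm : 1 ≤ d ^ n := Nat.one_le_pow _ _ (by omega)
  rw [Finset.Nat.sum_antidiagonal_eq_sum_range_succ_mk] at h2
  have h3 : ‖P d (n + 1) t‖ = ‖tc (LL β t) (d ^ n - 1)‖ := by rw [h1, norm_neg]
  rw [h3, h2]
  refine (norm_sum_le _ _).trans (le_of_eq ?_)
  apply Finset.sum_nbij' (fun i => i + 1) (fun l => l - 1)
  · intro i hi
    rw [Finset.mem_range] at hi
    rw [Finset.mem_Icc]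
    omega
  · intro l hl
    rw [Finset.mem_Icc] at hl
    rw [Finset.mem_range]
    omega
  · intro i _
    omega
  · intro l hl
    rw [Finset.mem_Icc] at hl
    omega
  · intro i hi
    rw [Finset.mem_range] at hi
    simp only
    rw [tc_deriv, norm_mul, norm_mul]
    have h4 : ‖(i : ℂ) + 1‖ = ((i + 1 : ℕ) : ℝ) := by
      have : (i : ℂ) + 1 = (((i + 1 : ℕ) : ℝ) : ℂ) := by push_cast; ring
      rw [this, Complex.norm_real, Real.norm_eq_abs, abs_of_nonneg (by positivity)]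
    rw [h4, show d ^ n - 1 - i = d ^ n - (i + 1) by omega]

/-- A good base point: `1/8`. -/
theorem ball_subset_multibrot {d : ℕ} (hd : 2 ≤ d) :
    ball (1 / 8 : ℂ) (1 / 8) ⊆ multibrotSet d := by
  intro c hc
  rw [mem_ball, dist_eq_norm] at hc
  have hc4 : ‖c‖ ≤ 1 / 4 := by
    have h1 : ‖c‖ ≤ ‖c - 1 / 8‖ + ‖(1 / 8 : ℂ)‖ := by
      have := norm_add_le (c - 1 / 8) (1 / 8)
      rwa [sub_add_cancel] at this
    have h2 : ‖(1 / 8 : ℂ)‖ = 1 / 8 := by norm_num
    linarith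
  rw [mem_multibrot_iff hd]
  have key : ∀ k, ‖P d k c‖ ≤ 1 / 2 := by
    intro k
    induction k with
    | zero => rw [P_zero, norm_zero]; norm_num
    | succ k ih =>
      rw [P_succ]
      calc ‖(P d k c) ^ d + c‖ ≤ ‖(P d k c) ^ d‖ + ‖c‖ := norm_add_le _ _
        _ ≤ (1 / 2) ^ d + 1 / 4 := by
            rw [norm_pow]
            gcongr
        _ ≤ (1 / 2) ^ 2 + 1 / 4 := by
            gcongr ?_ + _
            exact pow_le_pow_of_le_one (by norm_num) (by norm_num) hd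
        _ = 1 / 2 := by norm_num
  intro k
  linarith [key k]

theorem P_ge {d : ℕ} (k : ℕ) : 1 / 8 ≤ ‖P d (k + 1) (1 / 8)‖ := by
  have key : ∀ k, ∃ r : ℝ, 0 ≤ r ∧ P d k (1 / 8) = (r : ℂ) := by
    intro k
    induction k with
    | zero => exact ⟨0, le_rfl, by rw [P_zero]; simp⟩
    | succ k ih =>
      obtain ⟨r, hr, he⟩ := ih
      refine ⟨r ^ d + 1 / 8, by positivity, ?_⟩
      rw [P_succ, he]
      push_cast
      ring
  obtain ⟨r, hr, he⟩ := key k
  rw [P_succ, he]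
  have : ((r : ℂ)) ^ d + 1 / 8 = ((r ^ d + 1 / 8 : ℝ) : ℂ) := by push_cast; ring
  rw [this, Complex.norm_real, Real.norm_eq_abs, abs_of_nonneg (by positivity)]
  have : 0 ≤ r ^ d := by positivity
  linarith

end Pool.Agent.H713R2
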