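import Mathlib
import Pool.Agent.H713R2.Area
import Pool.Agent.H713R2.Ident

set_option autoImplicit false

open Complex Set Topology Filter Metric

namespace Pool.Agent.H713R2

/-- `F` has absolutely summable Taylor coefficients with sum at most `B`. -/
def InA (F : ℂ → ℂ) (B : ℝ) : Prop := ∀ K : ℕ, ∑ k ∈ Finset.range K, ‖tc F k‖ ≤ B

theorem InA.summable {F : ℂ → ℂ} {B : ℝ} (h : InA F B) : Summable (fun k => ‖tc F k‖) :=
  summable_of_sum_range_le (fun _ => norm_nonneg _) h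

theorem InA.tsum_le {F : ℂ → ℂ} {B : ℝ} (h : InA F B) : ∑' k, ‖tc F k‖ ≤ B :=
  Real.tsum_le_of_sum_range_le (fun _ => norm_nonneg _) h

theorem InA.nonneg {F : ℂ → ℂ} {B : ℝ} (h : InA F B) : 0 ≤ B := by simpa using h 0

theorem InA.mul {F G : ℂ → ℂ} {a b : ℝ} (hF : DifferentiableOn ℂ F (ball 0 1))
    (hG : DifferentiableOn ℂ G (ball 0 1)) (ha : InA F a) (hb : InA G b) :
    InA (fun x => F x * G x) (a * b) := by
  intro K
  have hs1 := ha.summable
  have hs2 := hb.summable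
  have h1 : ∀ n, ‖tc (fun x => F x * G x) n‖ ≤
      ∑ p ∈ Finset.HasAntidiagonal.antidiagonal n, ‖tc F p.1‖ * ‖tc G p.2‖ := by
    intro n
    rw [tc_mul one_pos hF hG]
    refine (norm_sum_le _ _).trans (le_of_eq ?_)
    exact Finset.sum_congr rfl fun p _ => norm_mul _ _
  have hs1' : Summable (fun k => ‖(‖tc F k‖ : ℝ)‖) := by simpa using hs1
  have hs2' : Summable (fun k => ‖(‖tc G k‖ : ℝ)‖) := by simpa using hs2
  have h2 := tsum_mul_tsum_eq_tsum_sum_antidiagonal_of_summable_norm hs1' hs2'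
  have h3 := (summable_norm_sum_mul_antidiagonal_of_summable_norm hs1' hs2').of_norm
  calc ∑ k ∈ Finset.range K, ‖tc (fun x => F x * G x) k‖
      ≤ ∑ k ∈ Finset.range K, ∑ p ∈ Finset.HasAntidiagonal.antidiagonal k, ‖tc F p.1‖ * ‖tc G p.2‖ :=
        Finset.sum_le_sum fun n _ => h1 n
    _ ≤ ∑' k, ∑ p ∈ Finset.HasAntidiagonal.antidiagonal k, ‖tc F p.1‖ * ‖tc G p.2‖ :=
        h3.sum_le_tsum _ fun n _ => Finset.sum_nonneg fun p _ => by positivity
    _ = (∑' k, ‖tc F k‖) * ∑' k, ‖tc G k‖ := h2.symm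
    _ ≤ a * b := mul_le_mul ha.tsum_le hb.tsum_le (tsum_nonneg fun _ => norm_nonneg _) ha.nonneg

theorem InA_one : InA (fun _ => (1 : ℂ)) 1 := by
  intro K
  cases K with
  | zero => simp
  | succ K =>
    rw [Finset.sum_range_succ']
    simp only [tc_const_succ, tc_zero, norm_zero, Finset.sum_const_zero, zero_add, norm_one]
    exact le_rfl

theorem InA.pow {F : ℂ → ℂ} {a : ℝ} (hF : DifferentiableOn ℂ F (ball 0 1)) (ha : InA F a) (j : ℕ) :
    InA (fun x => F x ^ j) (a ^ j) := by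
  induction j with
  | zero => simpa using InA_one
  | succ j ih =>
    simp only [pow_succ]
    exact InA.mul (hF.pow j) hF ih ha

theorem InA.add {F G : ℂ → ℂ} {a b : ℝ} (hF : DifferentiableOn ℂ F (ball 0 1))
    (hG : DifferentiableOn ℂ G (ball 0 1)) (ha : InA F a) (hb : InA G b) :
    InA (fun x => F x + G x) (a + b) := by
  intro K
  calc ∑ k ∈ Finset.range K, ‖tc (fun x => F x + G x) k‖
      ≤ ∑ k ∈ Finset.range K, (‖tc F k‖ + ‖tc G k‖) := by
        apply Finset.sum_le_sum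
        intro k _
        rw [tc_add one_pos hF hG]
        exact norm_add_le _ _
    _ = ∑ k ∈ Finset.range K, ‖tc F k‖ + ∑ k ∈ Finset.range K, ‖tc G k‖ := Finset.sum_add_distrib
    _ ≤ a + b := add_le_add (ha K) (hb K)

/-- `L²` bound on the coefficients of a bounded function. -/
theorem sum_sq_le {F : ℂ → ℂ} {M : ℝ} (hF : DifferentiableOn ℂ F (ball 0 1))
    (hM : ∀ x ∈ ball (0 : ℂ) 1, ‖F x‖ ≤ M) (K : ℕ) :
    ∑ k ∈ Finset.range K, ‖tc F k‖ ^ 2 ≤ M ^ 2 := by
  have hM0 : 0 ≤ M := (norm_nonneg _).trans (hM 0 (mem_ball_self one_pos))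
  have h1 : ∀ r ∈ Ioo (0 : ℝ) 1, ∑ k ∈ Finset.range K, ‖tc F k‖ ^ 2 * r ^ (2 * k) ≤ M ^ 2 := by
    intro r hr
    have h2 := bessel hF hr.1 hr.2 K
    have h3 : ∫ θ in (-Real.pi)..Real.pi, ‖F (circleMap 0 r θ)‖ ^ 2 ≤
        ∫ θ in (-Real.pi)..Real.pi, M ^ 2 := by
      apply intervalIntegral.integral_mono_on (by linarith [Real.pi_pos])
      · apply Continuous.intervalIntegrable
        apply Continuous.pow
        apply Continuous.norm
        apply hF.continuousOn.comp_continuous (continuous_circleMap 0 r)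
        intro θ
        rw [mem_ball_zero_iff, norm_circleMap_zero, abs_of_pos hr.1]
        exact hr.2
      · exact intervalIntegrable_const
      · intro θ _
        apply pow_le_pow_left₀ (norm_nonneg _)
        apply hM
        rw [mem_ball_zero_iff, norm_circleMap_zero, abs_of_pos hr.1]
        exact hr.2
    rw [intervalIntegral.integral_const, smul_eq_mul] at h3
    have hpi := Real.pi_pos
    have h4 := h2.trans h3
    rw [show (Real.pi - -Real.pi) * M ^ 2 = 2 * Real.pi * M ^ 2 by ring] at h4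
    exact le_of_mul_le_mul_left h4 (by positivity)
  have h2 : Tendsto (fun r : ℝ => ∑ k ∈ Finset.range K, ‖tc F k‖ ^ 2 * r ^ (2 * k)) (𝓝[<] 1)
      (𝓝 (∑ k ∈ Finset.range K, ‖tc F k‖ ^ 2 * 1 ^ (2 * k))) := by
    have : Continuous (fun r : ℝ => ∑ k ∈ Finset.range K, ‖tc F k‖ ^ 2 * r ^ (2 * k)) := by fun_prop
    exact (this.tendsto 1).mono_left nhdsWithin_le_nhds
  simp only [one_pow, mul_one] at h2
  refine le_of_tendsto h2 ?_
  filter_upwards [Ioo_mem_nhdsLT (show (0 : ℝ) < 1 by norm_num)] with r hr using h1 r hr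

theorem sum_inv_sq_le (K : ℕ) : ∑ k ∈ Finset.range K, (((k : ℝ) + 1)⁻¹) ^ 2 ≤ 2 := by
  have h : ∀ K : ℕ, ∑ k ∈ Finset.range (K + 1), (((k : ℝ) + 1)⁻¹) ^ 2 ≤ 2 - 1 / ((K : ℝ) + 1) := by
    intro K
    induction K with
    | zero => norm_num
    | succ K ih =>
      rw [Finset.sum_range_succ]
      have h1 : (0 : ℝ) < (K : ℝ) + 1 := by positivity
      have h2 : (((K + 1 : ℕ) : ℝ) + 1)⁻¹ ^ 2 ≤ 1 / ((K : ℝ) + 1) - 1 / (((K + 1 : ℕ) : ℝ) + 1) := by
        push_cast
        rw [div_sub_div _ _ (by positivity) (by positivity), inv_pow, ← one_div,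
          div_le_div_iff₀ (by positivity) (by positivity)]
        nlinarith
      linarith
  cases K with
  | zero => simp
  | succ K =>
    have := h K
    have h1 : (0 : ℝ) < 1 / ((K : ℝ) + 1) := by positivity
    linarith

/-- A bounded derivative gives absolutely summable coefficients. -/
theorem InA_of_deriv_bound {F : ℂ → ℂ} {M0 M : ℝ} (hF : DifferentiableOn ℂ F (ball 0 1))
    (h0 : ‖F 0‖ ≤ M0) (hM : ∀ x ∈ ball (0 : ℂ) 1, ‖deriv F x‖ ≤ M) : InA F (M0 + 2 * M) := by
  have hM0 : 0 ≤ M := (norm_nonneg _).trans (hM 0 (mem_ball_self one_pos))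
  have hM00 : 0 ≤ M0 := (norm_nonneg _).trans h0
  intro K
  cases K with
  | zero => simp; positivity
  | succ K =>
    rw [Finset.sum_range_succ', tc_zero]
    have h1 := sum_sq_le (hF.deriv isOpen_ball) hM K
    have h2 := Finset.sum_mul_sq_le_sq_mul_sq (Finset.range K) (fun k : ℕ => ((k : ℝ) + 1)⁻¹)
      (fun k => ‖tc (deriv F) k‖)
    have h3 : ∀ k ∈ Finset.range K, ((k : ℝ) + 1)⁻¹ * ‖tc (deriv F) k‖ = ‖tc F (k + 1)‖ := by
      intro k _
      rw [tc_deriv, norm_mul]
      have h4 : ‖(k : ℂ) + 1‖ = (k : ℝ) + 1 := by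
        have : (k : ℂ) + 1 = (((k : ℝ) + 1 : ℝ) : ℂ) := by push_cast; ring
        rw [this, Complex.norm_real, Real.norm_eq_abs, abs_of_nonneg (by positivity)]
      rw [h4]
      field_simp
    rw [Finset.sum_congr rfl h3] at h2
    have h4 : (∑ k ∈ Finset.range K, ‖tc F (k + 1)‖) ^ 2 ≤ (2 * M) ^ 2 := by
      refine h2.trans ?_
      calc (∑ k ∈ Finset.range K, ((k : ℝ) + 1)⁻¹ ^ 2) * ∑ k ∈ Finset.range K, ‖tc (deriv F) k‖ ^ 2
          ≤ 2 * M ^ 2 := mul_le_mul (sum_inv_sq_le K) h1 (Finset.sum_nonneg fun _ _ => by positivity)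
            (by norm_num)
        _ ≤ (2 * M) ^ 2 := by nlinarith
    have h5 := abs_le_of_sq_le_sq h4 (by positivity)
    have h6 := (le_abs_self (∑ k ∈ Finset.range K, ‖tc F (k + 1)‖)).trans h5
    linarith

theorem InA.norm_le {F : ℂ → ℂ} {B : ℝ} (hF : DifferentiableOn ℂ F (ball 0 1)) (h : InA F B)
    {x : ℂ} (hx : x ∈ ball (0 : ℂ) 1) : ‖F x‖ ≤ B := by
  have h1 := hasSum_tc hF hx
  have h2 : ∀ k, ‖tc F k * x ^ k‖ ≤ ‖tc F k‖ := by
    intro k
    rw [norm_mul, norm_pow]
    exact mul_le_of_le_one_right (norm_nonneg _) (pow_le_one₀ (norm_nonneg _)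
      (mem_ball_zero_iff.mp hx).le)
  have h3 : ‖F x‖ ≤ ∑' k, ‖tc F k‖ := by
    rw [← h1.tsum_eq]
    exact tsum_of_norm_bounded h.summable.hasSum h2
  exact h3.trans h.tsum_le

theorem norm_tc_le {F : ℂ → ℂ} {M : ℝ} (hF : DifferentiableOn ℂ F (ball 0 1))
    (hM : ∀ x ∈ ball (0 : ℂ) 1, ‖F x‖ ≤ M) (k : ℕ) : ‖tc F k‖ ≤ M := by
  have hM0 : 0 ≤ M := (norm_nonneg _).trans (hM 0 (mem_ball_self one_pos))
  have h1 := sum_sq_le hF hM (k + 1)
  have h2 : ‖tc F k‖ ^ 2 ≤ ∑ k ∈ Finset.range (k + 1), ‖tc F k‖ ^ 2 :=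
    Finset.single_le_sum (f := fun k => ‖tc F k‖ ^ 2) (fun _ _ => by positivity)
      (Finset.self_mem_range_succ k)
  exact (pow_le_pow_iff_left₀ (norm_nonneg _) hM0 two_ne_zero).mp (h2.trans h1)

/-- Wiener's lemma for power series with absolutely summable coefficients (Newman's proof). -/
theorem wiener {h : ℂ → ℂ} (hd : DifferentiableOn ℂ h (ball 0 1))
    (hs : Summable (fun k => ‖tc h k‖)) {δ : ℝ} (hδ : 0 < δ)
    (hb : ∀ x ∈ ball (0 : ℂ) 1, δ ≤ ‖h x‖) : Summable (fun k => ‖tc (fun x => (h x)⁻¹) k‖) := by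
  obtain ⟨N, hN⟩ : ∃ N : ℕ, ∑' k, ‖tc h (k + N)‖ < δ / 3 :=
    ((tendsto_sum_nat_add fun k => ‖tc h k‖).eventually (gt_mem_nhds (by positivity))).exists
  set p : ℂ → ℂ := fun x => ∑ k ∈ Finset.range N, tc h k * x ^ k with hp
  have hpd : Differentiable ℂ p := by simp only [hp]; fun_prop
  have hpd' : DifferentiableOn ℂ p (ball 0 1) := hpd.differentiableOn
  set q : ℂ → ℂ := fun x => h x - p x with hq
  have hqd : DifferentiableOn ℂ q (ball 0 1) := hd.sub hpd'
  have htcp : ∀ k, tc p k = if k < N then tc h k else 0 := by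
    have h1 := tc_unique (a := fun k => if k < N then tc h k else 0) (F := p) one_pos hpd' ?_
    · intro k; rw [← h1]
    · refine Eventually.of_forall fun x => ?_
      have h2 : p x = ∑ k ∈ Finset.range N, (if k < N then tc h k else 0) * x ^ k := by
        simp only [hp]
        apply Finset.sum_congr rfl
        intro k hk
        rw [if_pos (Finset.mem_range.mp hk)]
      rw [h2]
      apply hasSum_sum_of_ne_finset_zero
      intro k hk
      rw [Finset.mem_range] at hk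
      rw [if_neg hk, zero_mul]
  have hqA : InA q (δ / 3) := by
    intro K
    have h1 : ∀ k, ‖tc q k‖ = if k < N then 0 else ‖tc h k‖ := by
      intro k
      have h2 : tc q k = tc h k - tc p k := tc_sub one_pos hd hpd' k
      rw [h2, htcp]
      split_ifs <;> simp
    have h2 : ∑ k ∈ Finset.range K, ‖tc q k‖ ≤ ∑' k, ‖tc h (k + N)‖ := by
      have h3 : ∑ k ∈ Finset.range K, ‖tc q k‖ ≤ ∑ k ∈ Finset.range (N + K), ‖tc q k‖ := by
        apply Finset.sum_le_sum_of_subset_of_nonneg _ fun _ _ _ => norm_nonneg _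
        intro k hk
        rw [Finset.mem_range] at hk ⊢
        omega
      refine h3.trans ?_
      rw [Finset.sum_range_add]
      have h4 : ∑ k ∈ Finset.range N, ‖tc q k‖ = 0 := by
        apply Finset.sum_eq_zero
        intro k hk
        rw [h1, if_pos (Finset.mem_range.mp hk)]
      rw [h4, zero_add]
      have h5 : ∑ k ∈ Finset.range K, ‖tc q (N + k)‖ = ∑ k ∈ Finset.range K, ‖tc h (k + N)‖ := by
        apply Finset.sum_congr rfl
        intro k _
        rw [h1, if_neg (by omega), add_comm]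
      rw [h5]
      exact ((summable_nat_add_iff N).mpr hs).sum_le_tsum _ fun _ _ => norm_nonneg _
    linarith
  have hqb : ∀ x ∈ ball (0 : ℂ) 1, ‖q x‖ ≤ δ / 3 := fun x hx => hqA.norm_le hqd hx
  have hpb : ∀ x ∈ ball (0 : ℂ) 1, 2 * δ / 3 ≤ ‖p x‖ := by
    intro x hx
    have h1 : ‖h x‖ ≤ ‖q x‖ + ‖p x‖ := by
      have : h x = q x + p x := by simp only [hq]; ring
      rw [this]
      exact norm_add_le _ _
    linarith [hb x hx, hqb x hx]
  have hpne : ∀ x ∈ ball (0 : ℂ) 1, p x ≠ 0 := by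
    intro x hx h0
    have := hpb x hx
    rw [h0, norm_zero] at this
    linarith
  have hhne : ∀ x ∈ ball (0 : ℂ) 1, h x ≠ 0 := by
    intro x hx h0
    have := hb x hx
    rw [h0, norm_zero] at this
    linarith
  obtain ⟨P1, hP1⟩ : ∃ P1, ∀ x ∈ closedBall (0 : ℂ) 1, ‖deriv p x‖ ≤ P1 :=
    (isCompact_closedBall (0 : ℂ) 1).exists_bound_of_continuousOn hpd.deriv.continuous.continuousOn
  have hP10 : 0 ≤ P1 := (norm_nonneg _).trans (hP1 0 (by simp))
  set W : ℝ := 3 / (2 * δ) with hW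
  have hW0 : 0 < W := by positivity
  set w : ℂ → ℂ := fun x => (p x)⁻¹ with hw
  have hwd : DifferentiableOn ℂ w (ball 0 1) := hpd'.inv hpne
  have hwb : ∀ x ∈ ball (0 : ℂ) 1, ‖w x‖ ≤ W := by
    intro x hx
    have h1 := hpb x hx
    simp only [hw, norm_inv]
    rw [hW, inv_le_comm₀ (by linarith) (by positivity)]
    refine le_trans (le_of_eq ?_) h1
    field_simp
  have hwd' : ∀ x ∈ ball (0 : ℂ) 1, ∀ j : ℕ,
      deriv (fun x => w x ^ (j + 1)) x = -((j + 1) * w x ^ (j + 2) * deriv p x) := by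
    intro x hx j
    have h1 : HasDerivAt p (deriv p x) x := (hpd x).hasDerivAt
    have h2 : HasDerivAt w (-(deriv p x) / p x ^ 2) x := h1.inv (hpne x hx)
    have h3 := h2.pow (j + 1)
    have h4 : (fun x => w x ^ (j + 1)) = w ^ (j + 1) := rfl
    rw [h4, h3.deriv]
    simp only [hw]
    have h5 := hpne x hx
    push_cast
    rw [pow_add _ j 2]
    field_simp
  have hwA : ∀ j : ℕ, InA (fun x => w x ^ (j + 1)) (W ^ (j + 1) + 2 * ((j + 1) * W ^ (j + 2) * P1)) := by
    intro j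
    have hwd2 : DifferentiableOn ℂ (fun x => w x ^ (j + 1)) (ball 0 1) := hwd.pow (j + 1)
    apply InA_of_deriv_bound hwd2
    · rw [norm_pow]
      exact pow_le_pow_left₀ (norm_nonneg _) (hwb 0 (mem_ball_self one_pos)) _
    · intro x hx
      rw [hwd' x hx j, norm_neg, norm_mul, norm_mul, norm_pow]
      have h4 : ‖(j : ℂ) + 1‖ = (j : ℝ) + 1 := by
        have : (j : ℂ) + 1 = (((j : ℝ) + 1 : ℝ) : ℂ) := by push_cast; ring
        rw [this, Complex.norm_real, Real.norm_eq_abs, abs_of_nonneg (by positivity)]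
      rw [h4]
      gcongr
      · exact hwb x hx
      · exact hP1 x (ball_subset_closedBall hx)
  have hnqd : DifferentiableOn ℂ (fun x => -q x) (ball 0 1) := hqd.neg
  have hnqA : InA (fun x => -q x) (δ / 3) := by
    have h1 : InA (fun x => (fun _ : ℂ => (0 : ℂ)) x - q x) (δ / 3) := by
      intro K
      have h2 : ∀ k, tc (fun x => (fun _ : ℂ => (0 : ℂ)) x - q x) k = - tc q k := by
        intro k
        rw [tc_sub one_pos (differentiableOn_const _) hqd]
        have : tc (fun _ : ℂ => (0 : ℂ)) k = 0 := by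
          cases k with
          | zero => rw [tc_zero]
          | succ k => exact tc_const_succ 0 k
        rw [this, zero_sub]
      simp only [h2, norm_neg]
      exact hqA K
    simpa using h1
  set c : ℕ → ℝ := fun j => (δ / 3) ^ j * (W ^ (j + 1) + 2 * ((j + 1) * W ^ (j + 2) * P1)) with hc
  set T : ℕ → ℂ → ℂ := fun j x => (-q x) ^ j * w x ^ (j + 1) with hT
  have hTd : ∀ j, DifferentiableOn ℂ (T j) (ball 0 1) := fun j => (hnqd.pow j).mul (hwd.pow (j + 1))
  have hTA : ∀ j, InA (T j) (c j) := fun j =>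
    InA.mul (hnqd.pow j) (hwd.pow (j + 1)) (InA.pow hnqd hnqA j) (hwA j)
  have hcs : Summable c := by
    have h1 : ∀ j, c j = W * (1 / 2) ^ j + 2 * P1 * W ^ 2 * ((j : ℝ) ^ 1 * (1 / 2) ^ j) +
        2 * P1 * W ^ 2 * (1 / 2) ^ j := by
      intro j
      have h2 : δ / 3 * W = 1 / 2 := by rw [hW]; field_simp
      simp only [hc]
      rw [← h2, mul_pow]
      ring
    have h3 : Summable (fun j : ℕ => (1 / 2 : ℝ) ^ j) :=
      summable_geometric_of_lt_one (by norm_num) (by norm_num)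
    have h4 : Summable (fun j : ℕ => (j : ℝ) ^ 1 * (1 / 2 : ℝ) ^ j) :=
      summable_pow_mul_geometric_of_norm_lt_one 1 (by norm_num)
    refine (((h3.mul_left W).add (h4.mul_left (2 * P1 * W ^ 2))).add
      (h3.mul_left (2 * P1 * W ^ 2))).congr fun j => (h1 j).symm
  have hc0 : ∀ j, 0 ≤ c j := fun j => by simp only [hc]; positivity
  set S : ℕ → ℂ → ℂ := fun J x => ∑ j ∈ Finset.range J, T j x with hS
  have hSd : ∀ J, DifferentiableOn ℂ (S J) (ball 0 1) := by
    intro J
    induction J with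
    | zero =>
      have : S 0 = fun _ => 0 := by funext x; simp [hS]
      rw [this]; exact differentiableOn_const _
    | succ J ih =>
      have : S (J + 1) = fun x => S J x + T J x := by funext x; simp [hS, Finset.sum_range_succ]
      rw [this]; exact ih.add (hTd J)
  have hSA : ∀ J, InA (S J) (∑ j ∈ Finset.range J, c j) := by
    intro J
    induction J with
    | zero =>
      have h1 : S 0 = fun _ => 0 := by funext x; simp [hS]
      rw [h1]
      intro K
      have h2 : ∀ k, tc (fun _ : ℂ => (0 : ℂ)) k = 0 := by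
        intro k
        cases k with
        | zero => rw [tc_zero]
        | succ k => exact tc_const_succ 0 k
      simp [h2]
    | succ J ih =>
      have : S (J + 1) = fun x => S J x + T J x := by funext x; simp [hS, Finset.sum_range_succ]
      rw [this, Finset.sum_range_succ]
      exact InA.add (hSd J) (hTd J) ih (hTA J)
  have hid : DifferentiableOn ℂ (fun x => (h x)⁻¹) (ball 0 1) := hd.inv hhne
  have hgeo : ∀ J, ∀ x ∈ ball (0 : ℂ) 1, (h x)⁻¹ - S J x = (-q x * w x) ^ J * (h x)⁻¹ := by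
    intro J x hx
    have h1 := hpne x hx
    have h2 := hhne x hx
    induction J with
    | zero => simp [hS]
    | succ J ih =>
      have h3 : S (J + 1) x = S J x + T J x := by simp [hS, Finset.sum_range_succ]
      rw [h3, ← sub_sub, ih]
      simp only [hT, hw]
      have h4 : h x = q x + p x := by simp only [hq]; ring
      have h5 : (-q x * (p x)⁻¹) ^ J * (h x)⁻¹ - (-q x) ^ J * (p x)⁻¹ ^ (J + 1) =
          (-q x * (p x)⁻¹) ^ J * ((h x)⁻¹ - (p x)⁻¹) := by
        rw [mul_pow, pow_succ]; ring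
      rw [h5, pow_succ (-q x * (p x)⁻¹) J, mul_assoc]
      congr 1
      field_simp
      rw [h4]
      ring
  have hdiffb : ∀ J, ∀ x ∈ ball (0 : ℂ) 1, ‖(h x)⁻¹ - S J x‖ ≤ (1 / 2) ^ J * δ⁻¹ := by
    intro J x hx
    rw [hgeo J x hx, norm_mul, norm_pow, norm_mul, norm_neg, norm_inv (h x)]
    have h2 : δ / 3 * W = 1 / 2 := by rw [hW]; field_simp
    have h3 : ‖q x‖ * ‖w x‖ ≤ 1 / 2 := by
      rw [← h2]
      exact mul_le_mul (hqb x hx) (hwb x hx) (norm_nonneg _) (by positivity)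
    have h4 : ‖h x‖⁻¹ ≤ δ⁻¹ := inv_anti₀ hδ (hb x hx)
    exact mul_le_mul (pow_le_pow_left₀ (by positivity) h3 J) h4 (by positivity) (by positivity)
  refine summable_of_sum_range_le (c := ∑' j, c j) (fun _ => norm_nonneg _) fun K => ?_
  have hbound : ∀ J : ℕ, ∑ k ∈ Finset.range K, ‖tc (fun x => (h x)⁻¹) k‖ ≤
      ∑' j, c j + K * ((1 / 2) ^ J * δ⁻¹) := by
    intro J
    have h1 : ∀ k ∈ Finset.range K, ‖tc (fun x => (h x)⁻¹) k‖ ≤ ‖tc (S J) k‖ + (1 / 2) ^ J * δ⁻¹ := by
      intro k _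
      have h2 := norm_tc_le (hid.sub (hSd J)) (hdiffb J) k
      have h3 : tc (fun x => (h x)⁻¹ - S J x) k = tc (fun x => (h x)⁻¹) k - tc (S J) k :=
        tc_sub one_pos hid (hSd J) k
      have h4 : ‖tc (fun x => (h x)⁻¹) k - tc (S J) k‖ ≤ (1 / 2) ^ J * δ⁻¹ := by
        rw [← h3]; exact h2
      have h5 := norm_sub_norm_le (tc (fun x => (h x)⁻¹) k) (tc (S J) k)
      linarith
    refine (Finset.sum_le_sum h1).trans ?_
    rw [Finset.sum_add_distrib, Finset.sum_const, Finset.card_range, nsmul_eq_mul]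
    gcongr
    exact (hSA J K).trans (hcs.sum_le_tsum _ fun j _ => hc0 j)
  have hlim : Tendsto (fun J : ℕ => ∑' j, c j + K * ((1 / 2 : ℝ) ^ J * δ⁻¹)) atTop
      (𝓝 (∑' j, c j + K * (0 * δ⁻¹))) := by
    apply Tendsto.const_add
    apply Tendsto.const_mul
    apply Tendsto.mul_const
    exact tendsto_pow_atTop_nhds_zero_of_lt_one (by norm_num) (by norm_num)
  rw [zero_mul, mul_zero, add_zero] at hlim
  exact ge_of_tendsto' hlim hbound

end Pool.Agent.H713R2
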