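import Mathlib
import Pool.Agent.H713R2.Main2
import Pool.Agent.H713R2.Wiener
import Pool.Agent.H713R2.Ext3

set_option autoImplicit false

open Complex Set Topology Filter Metric N62a1eb23

namespace Pool.Agent.H713R2

open Pool.Agent.H712R2

theorem hh_lower {d : ℕ} (hd : 2 ≤ d) {β : ℂ → ℂ} (hβ : IsBeta d β) :
    ∃ δ : ℝ, 0 < δ ∧ ∀ x ∈ ball (0 : ℂ) 1, δ ≤ ‖hh β (1 / 8) x‖ := by
  have hc : ContinuousAt (hh β (1 / 8)) 0 :=
    ((hh_diff hβ (1 / 8)).differentiableAt (ball_mem_nhds 0 one_pos)).continuousAt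
  have h0 : hh β (1 / 8) 0 = 1 := by simp [hh, hβ.zero]
  have hev : ∀ᶠ x in 𝓝 (0 : ℂ), 1 / 2 < ‖hh β (1 / 8) x‖ := by
    have h1 : (1 / 2 : ℝ) < ‖hh β (1 / 8) 0‖ := by
      rw [h0, norm_one]
      norm_num
    exact hc.norm.eventually (lt_mem_nhds h1)
  obtain ⟨r, hr, hrs⟩ := Metric.eventually_nhds_iff_ball.mp hev
  refine ⟨min (1 / 2) (r / 8), by positivity, fun x hx => ?_⟩
  by_cases hxr : x ∈ ball (0 : ℂ) r
  · exact (min_le_left _ _).trans (hrs x hxr).le
  · refine (min_le_right _ _).trans ?_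
    have hxn : r ≤ ‖x‖ := by
      rw [mem_ball_zero_iff] at hxr
      exact not_lt.mp hxr
    have hx0 : x ≠ 0 := by
      rintro rfl
      rw [norm_zero] at hxn
      linarith
    have h1 : hh β (1 / 8) x = x * (x⁻¹ * β x - 1 / 8) := by
      unfold hh
      field_simp
    have h2 : 1 / 8 ≤ ‖x⁻¹ * β x - 1 / 8‖ := by
      by_contra hlt
      push Not at hlt
      apply hβ.notMem x hx hx0
      apply ball_subset_multibrot hd
      rwa [mem_ball, dist_eq_norm]
    rw [h1, norm_mul]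
    nlinarith [norm_nonneg x]

/-- If the Laurent series converges absolutely on the unit circle, its coefficients are not
`o(1/m)` in any sequence of `d`-adic blocks. -/
theorem main_dichotomy {d : ℕ} (hd : 2 ≤ d) {β : ℂ → ℂ} (hβ : IsBeta d β)
    (hs : Summable (fun k => ‖tc β k‖)) :
    ∃ c : ℝ, 0 < c ∧ ∀ᶠ n : ℕ in atTop, ∃ k : ℕ, d ^ n ≤ k ∧ k < d ^ (n + 1) ∧
      c ≤ (k : ℝ) * ‖tc β (k + 1)‖ := by
  obtain ⟨δ, hδ, hlow⟩ := hh_lower hd hβ
  have hs2 : Summable (fun k => ‖tc (hh β (1 / 8)) k‖) := by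
    rw [← summable_nat_add_iff 2] at hs ⊢
    refine hs.congr fun k => ?_
    rw [tc_hh hβ _ (show 2 ≤ k + 2 by omega)]
  have hU : Summable (fun k => ‖uu β (1 / 8) k‖) := wiener (hh_diff hβ _) hs2 hδ hlow
  set B : ℝ := ∑' k, ‖uu β (1 / 8) k‖ with hB
  have hB0 : 0 ≤ B := tsum_nonneg fun _ => norm_nonneg _
  obtain ⟨E, hE, hsplit⟩ := split_ineq hd hβ
  refine ⟨1 / (64 * (B + 1)), by positivity, ?_⟩
  filter_upwards [hE.eventually (gt_mem_nhds (show (0 : ℝ) < 1 / 32 by norm_num))] with n hn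
  by_contra hcon
  push Not at hcon
  have h1 := hsplit n (1 / (64 * (B + 1))) (by positivity) fun k h1 h2 => (hcon k h1 h2).le
  have h2 : ∑ j ∈ Finset.range (d ^ (n + 1)), ‖uu β (1 / 8) j‖ ≤ B :=
    hU.sum_le_tsum _ fun _ _ => norm_nonneg _
  have h3 : 2 * (1 / (64 * (B + 1))) * ∑ j ∈ Finset.range (d ^ (n + 1)), ‖uu β (1 / 8) j‖ ≤
      2 * (1 / (64 * (B + 1))) * B := mul_le_mul_of_nonneg_left h2 (by positivity)
  have h4 : 2 * (1 / (64 * (B + 1))) * B ≤ 1 / 32 := by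
    rw [show 2 * (1 / (64 * (B + 1))) * B = B / (32 * (B + 1)) by field_simp; ring]
    rw [div_le_div_iff₀ (by positivity) (by norm_num)]
    linarith
  linarith

/-- The Laurent coefficients are determined by the map. -/
theorem laurent_unique {ψ : ℂ → ℂ} {b b' : ℕ → ℂ} (h : HasLaurent ψ b) (h' : HasLaurent ψ b') :
    b = b' := by
  set F : ℂ → ℂ := fun x => x * (ψ x⁻¹ - x⁻¹) with hF
  have key : ∀ c : ℕ → ℂ, HasLaurent ψ c →
      ∀ᶠ x in 𝓝 (0 : ℂ), HasSum (fun k => (if k = 0 then 0 else c (k - 1)) * x ^ k) (F x) := by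
    intro c hc
    filter_upwards [ball_mem_nhds (0 : ℂ) one_pos] with x hx
    rw [← hasSum_nat_add_iff' 1]
    simp only [Finset.range_one, Finset.sum_singleton, pow_zero, mul_one, if_true, sub_zero,
      Nat.add_sub_cancel, Nat.succ_ne_zero, if_false, Nat.add_eq_zero_iff, one_ne_zero, and_false]
    by_cases hx0 : x = 0
    · subst hx0
      simp only [hF, zero_mul]
      have : (fun n : ℕ => c n * (0 : ℂ) ^ (n + 1)) = fun _ => 0 := by
        funext n; simp
      rw [this]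
      exact hasSum_zero
    · have h1 := (hc x⁻¹ (one_lt_norm_inv hx hx0)).mul_left x
      have h2 : (fun n : ℕ => c n * x ^ (n + 1)) = fun n => x * (c n / x⁻¹ ^ n) := by
        funext n
        rw [inv_pow, div_inv_eq_mul, pow_succ]
        ring
      rw [h2]
      exact h1
  have h1 := coef_unique (key b h) (key b' h')
  funext k
  simpa using congrFun h1 (k + 1)

theorem exterior_coeff {d : ℕ} {β : ℂ → ℂ} (hβ : IsBeta d β) {ψ : ℂ → ℂ} {b : ℕ → ℂ}
    (hψ : IsExteriorMap (multibrotSet d) ψ) (hb : HasLaurent ψ b) (m : ℕ) :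
    b m = tc β (m + 1) := by
  have h1 : HasLaurent ψ (fun m => tc β (m + 1)) := by
    intro z hz
    rw [exteriorMap_unique hβ hψ hz]
    exact laurent_of_beta hβ z hz
  rw [laurent_unique hb h1]

end Pool.Agent.H713R2
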