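import Mathlib
import Pool.Agent.H713R2.Seq

set_option autoImplicit false

open Topology Filter

namespace Pool.Agent.H713R2

/-- The cut-off `⌈(1 - ε) d ^ n⌉`. -/
noncomputable def cut (d : ℕ) (ε : ℝ) (n : ℕ) : ℕ := ⌈(1 - ε) * (d : ℝ) ^ n⌉₊

theorem cut_le {d : ℕ} {ε : ℝ} (hε : 0 ≤ ε) (n : ℕ) : cut d ε n ≤ d ^ n := by
  apply Nat.ceil_le.mpr
  push_cast
  have : (0 : ℝ) ≤ (d : ℝ) ^ n := by positivity
  nlinarith

theorem sub_cut {d : ℕ} {ε : ℝ} (hε : 0 < ε) (hε1 : ε ≤ 1) (n : ℕ) :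
    ε * (d : ℝ) ^ n ≤ ((d ^ n - cut d ε n : ℕ) : ℝ) + 1 := by
  rw [Nat.cast_sub (cut_le hε.le n)]
  have h1 : (cut d ε n : ℝ) < (1 - ε) * (d : ℝ) ^ n + 1 := by
    apply Nat.ceil_lt_add_one
    have : (0 : ℝ) ≤ (d : ℝ) ^ n := by positivity
    exact mul_nonneg (by linarith) this
  push_cast
  linarith

/-- Frequencies below `(1 - ε) d ^ n` do not contribute. -/
theorem low_part' {A U : ℕ → ℝ} (hA : ∀ l, 0 ≤ A l) (hU : ∀ j, 0 ≤ U j)
    (hSA : Summable (fun l : ℕ => (l : ℝ) * A l ^ 2))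
    (hSU : Summable (fun j : ℕ => ((j : ℝ) + 1) * U j ^ 2)) {d : ℕ} (hd : 2 ≤ d) {ε : ℝ}
    (hε : 0 < ε) (hε1 : ε ≤ 1) :
    Tendsto (fun n : ℕ => ∑ l ∈ Finset.Icc 1 (cut d ε n), (l : ℝ) * A l * U (d ^ n - l))
      atTop (𝓝 0) := by
  set w : ℕ → ℝ := fun j => ((j : ℝ) + 1) * U j ^ 2 with hw
  have hw0 : ∀ j, 0 ≤ w j := fun j => by simp only [hw]; positivity
  set D : ℝ := ∑' l : ℕ, (l : ℝ) * A l ^ 2 with hD
  have hD0 : 0 ≤ D := tsum_nonneg fun l => by positivity
  have hdpos : ∀ n : ℕ, (0 : ℝ) < (d : ℝ) ^ n := fun n => by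
    have : (0 : ℝ) < d := by exact_mod_cast (show 0 < d by omega)
    positivity
  have hgap : Tendsto (fun n : ℕ => d ^ n - cut d ε n) atTop atTop := by
    rw [← tendsto_natCast_atTop_iff (R := ℝ)]
    have h1 : Tendsto (fun n : ℕ => ε * (d : ℝ) ^ n - 1) atTop atTop := by
      apply tendsto_atTop_add_const_right
      apply Tendsto.const_mul_atTop hε
      exact tendsto_pow_atTop_atTop_of_one_lt (by exact_mod_cast (show 1 < d by omega))
    refine tendsto_atTop_mono (fun n => ?_) h1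
    have := sub_cut (d := d) hε hε1 n
    linarith
  have htail : Tendsto (fun n : ℕ => ∑' k, w (k + (d ^ n - cut d ε n))) atTop (𝓝 0) :=
    (tendsto_sum_nat_add w).comp hgap
  -- the quantitative bound
  have hb : ∀ n : ℕ, (∑ l ∈ Finset.Icc 1 (cut d ε n), (l : ℝ) * A l * U (d ^ n - l)) ^ 2 ≤
      D / ε * ∑' k, w (k + (d ^ n - cut d ε n)) := by
    intro n
    have hgapn := sub_cut (d := d) hε hε1 n
    have hLm : cut d ε n ≤ d ^ n := cut_le hε.le n
    have hmpos := hdpos n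
    have hmc : ((d ^ n : ℕ) : ℝ) = (d : ℝ) ^ n := by push_cast; rfl
    set L : ℕ := cut d ε n with hL
    set m : ℕ := d ^ n with hm
    have h1 := Finset.sum_mul_sq_le_sq_mul_sq (Finset.Icc 1 L) (fun l : ℕ => (l : ℝ) * A l)
      (fun l : ℕ => U (m - l))
    have h2 : ∑ l ∈ Finset.Icc 1 L, ((l : ℝ) * A l) ^ 2 ≤ m * D := by
      have h3 : ∑ l ∈ Finset.Icc 1 L, ((l : ℝ) * A l ^ 2) ≤ D :=
        hSA.sum_le_tsum _ (fun l _ => by positivity)
      calc ∑ l ∈ Finset.Icc 1 L, ((l : ℝ) * A l) ^ 2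
          ≤ ∑ l ∈ Finset.Icc 1 L, m * ((l : ℝ) * A l ^ 2) := by
            apply Finset.sum_le_sum
            intro l hl
            have h4 : (l : ℝ) ≤ m := by exact_mod_cast (Finset.mem_Icc.mp hl).2.trans hLm
            have h5 : (0 : ℝ) ≤ l * A l ^ 2 := by positivity
            nlinarith
        _ = m * ∑ l ∈ Finset.Icc 1 L, ((l : ℝ) * A l ^ 2) := by rw [Finset.mul_sum]
        _ ≤ m * D := mul_le_mul_of_nonneg_left h3 (by positivity)
    have h3 : ε * (m : ℝ) * ∑ l ∈ Finset.Icc 1 L, U (m - l) ^ 2 ≤ ∑' k, w (k + (m - L)) := by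
      have h4 : ε * (m : ℝ) * ∑ l ∈ Finset.Icc 1 L, U (m - l) ^ 2 ≤
          ∑ l ∈ Finset.Icc 1 L, w (m - l) := by
        rw [Finset.mul_sum]
        apply Finset.sum_le_sum
        intro l hl
        have hl2 := (Finset.mem_Icc.mp hl).2
        simp only [hw]
        apply mul_le_mul_of_nonneg_right _ (by positivity)
        have h5 : m - L ≤ m - l := by omega
        have h6 : ((m - L : ℕ) : ℝ) ≤ ((m - l : ℕ) : ℝ) := by exact_mod_cast h5
        rw [hmc]
        linarith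
      have h5 : ∑ l ∈ Finset.Icc 1 L, w (m - l) = ∑ k ∈ Finset.range L, w (k + (m - L)) := by
        apply Finset.sum_nbij' (fun l => L - l) (fun k => L - k)
        · intro l hl
          rw [Finset.mem_Icc] at hl
          rw [Finset.mem_range]
          omega
        · intro k hk
          rw [Finset.mem_range] at hk
          rw [Finset.mem_Icc]
          omega
        · intro l hl
          rw [Finset.mem_Icc] at hl
          omega
        · intro k hk
          rw [Finset.mem_range] at hk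
          omega
        · intro l hl
          rw [Finset.mem_Icc] at hl
          congr 1
          omega
      rw [h5] at h4
      refine h4.trans ?_
      exact ((summable_nat_add_iff (m - L)).mpr hSU).sum_le_tsum _ (fun k _ => hw0 _)
    have h6 : 0 ≤ ∑ l ∈ Finset.Icc 1 L, U (m - l) ^ 2 := Finset.sum_nonneg fun l _ => by positivity
    calc (∑ l ∈ Finset.Icc 1 L, (l : ℝ) * A l * U (m - l)) ^ 2
        ≤ (∑ l ∈ Finset.Icc 1 L, ((l : ℝ) * A l) ^ 2) * ∑ l ∈ Finset.Icc 1 L, U (m - l) ^ 2 := h1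
      _ ≤ (m * D) * ∑ l ∈ Finset.Icc 1 L, U (m - l) ^ 2 := mul_le_mul_of_nonneg_right h2 h6
      _ = D / ε * (ε * m * ∑ l ∈ Finset.Icc 1 L, U (m - l) ^ 2) := by field_simp
      _ ≤ D / ε * ∑' k, w (k + (m - L)) := mul_le_mul_of_nonneg_left h3 (by positivity)
  have h7 : Tendsto (fun n : ℕ => Real.sqrt (D / ε * ∑' k, w (k + (d ^ n - cut d ε n)))) atTop
      (𝓝 0) := by
    have := (htail.const_mul (D / ε)).sqrt
    simpa using this
  refine squeeze_zero (fun n => ?_) (fun n => ?_) h7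
  · exact Finset.sum_nonneg fun l _ => by
      have := hA l
      have := hU (d ^ n - l)
      positivity
  · exact Real.le_sqrt_of_sq_le (hb n)

end Pool.Agent.H713R2
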