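import Mathlib
import Pool.Agent.H713R2.Main3
import Pool.Agent.H713R2.Seq2

set_option autoImplicit false

open Complex Set Topology Filter Metric N62a1eb23

namespace Pool.Agent.H713R2

open Pool.Agent.H712R2

theorem le_cut {d : ℕ} {ε : ℝ} (n : ℕ) : (1 - ε) * (d : ℝ) ^ n ≤ (cut d ε n : ℝ) :=
  Nat.le_ceil _

theorem one_le_cut {d : ℕ} (hd : 2 ≤ d) {ε : ℝ} (hε1 : ε < 1) (n : ℕ) : 1 ≤ cut d ε n := by
  apply Nat.one_le_ceil_iff.mpr
  have : (0 : ℝ) < (d : ℝ) ^ n := by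
    have : (0 : ℝ) < d := by exact_mod_cast (show 0 < d by omega)
    positivity
  exact mul_pos (by linarith) this

/-- Splitting the basic inequality, at the base point `1 / 8`, with short windows. -/
theorem split_ineq' {d : ℕ} (hd : 2 ≤ d) {β : ℂ → ℂ} (hβ : IsBeta d β) {ε : ℝ} (hε : 0 < ε)
    (hε1 : ε < 1) :
    ∃ E : ℕ → ℝ, Tendsto E atTop (𝓝 0) ∧ ∀ (n : ℕ) (s : ℝ), 1 ≤ n → 0 ≤ s →
      (∀ k, cut d ε n ≤ k → k < d ^ n → (k : ℝ) * ‖tc β (k + 1)‖ ≤ s) →
      1 / 8 ≤ 2 * s * ∑ j ∈ Finset.range (d ^ n), ‖uu β (1 / 8) j‖ + E n := by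
  have hball := ball_subset_multibrot hd
  have ht : (1 / 8 : ℂ) ∈ multibrotSet d := hball (mem_ball_self (by norm_num))
  have hA := dirichlet_hh hβ (1 / 8)
  have hU := dirichlet_u hβ (by norm_num : (0 : ℝ) < 1 / 8) hball
  set A : ℕ → ℝ := fun l => ‖tc (hh β (1 / 8)) l‖ with hAdef
  set U : ℕ → ℝ := fun j => ‖uu β (1 / 8) j‖ with hUdef
  have hA0 : ∀ l, 0 ≤ A l := fun l => norm_nonneg _
  have hU0 : ∀ l, 0 ≤ U l := fun l => norm_nonneg _
  refine ⟨fun n : ℕ => ∑ l ∈ Finset.Icc 1 (cut d ε n), (l : ℝ) * A l * U (d ^ n - l),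
    low_part' hA0 hU0 hA hU hd hε hε1.le, fun n s hn hs hk => ?_⟩
  have h1 := basic_ineq hd hβ ht (n := n) hn
  have h2 := P_ge (d := d) n
  have hL : cut d ε n ≤ d ^ n := cut_le hε.le n
  have hL1 : 1 ≤ cut d ε n := one_le_cut hd hε1 n
  set L := cut d ε n with hLdef
  set m := d ^ n with hm
  have h3 : ∑ l ∈ Finset.Icc 1 m, (l : ℝ) * A l * U (m - l) =
      ∑ l ∈ Finset.Icc 1 L, (l : ℝ) * A l * U (m - l) +
      ∑ l ∈ Finset.Ioc L m, (l : ℝ) * A l * U (m - l) := by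
    rw [← Finset.sum_union]
    · congr 1
      ext l
      simp only [Finset.mem_Icc, Finset.mem_Ioc, Finset.mem_union]
      omega
    · rw [Finset.disjoint_left]
      intro l hl hl2
      rw [Finset.mem_Icc] at hl
      rw [Finset.mem_Ioc] at hl2
      omega
  have h4 : ∑ l ∈ Finset.Ioc L m, (l : ℝ) * A l * U (m - l) ≤
      2 * s * ∑ j ∈ Finset.range m, U j := by
    have h5 : ∀ l ∈ Finset.Ioc L m, (l : ℝ) * A l * U (m - l) ≤ 2 * s * U (m - l) := by
      intro l hl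
      rw [Finset.mem_Ioc] at hl
      apply mul_le_mul_of_nonneg_right _ (hU0 _)
      obtain ⟨k, rfl⟩ := Nat.exists_eq_add_of_le' (show 1 ≤ l by omega)
      have h6 := hk k (by omega) (by omega)
      have h7 : A (k + 1) = ‖tc β (k + 1)‖ := by
        simp only [hAdef]
        rw [tc_hh hβ _ (by omega)]
      rw [h7]
      push_cast
      have h8 : (1 : ℝ) ≤ k := by exact_mod_cast (show 1 ≤ k by omega)
      have h9 : 0 ≤ ‖tc β (k + 1)‖ := norm_nonneg _
      nlinarith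
    refine (Finset.sum_le_sum h5).trans ?_
    rw [← Finset.mul_sum]
    apply mul_le_mul_of_nonneg_left _ (by positivity)
    have h6 : ∑ l ∈ Finset.Ioc L m, U (m - l) = ∑ j ∈ Finset.range (m - L), U j := by
      apply Finset.sum_nbij' (fun l => m - l) (fun j => m - j)
      · intro l hl
        rw [Finset.mem_Ioc] at hl
        rw [Finset.mem_range]
        omega
      · intro j hj
        rw [Finset.mem_range] at hj
        rw [Finset.mem_Ioc]
        omega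
      · intro l hl
        rw [Finset.mem_Ioc] at hl
        omega
      · intro j hj
        rw [Finset.mem_range] at hj
        omega
      · intro l _
        rfl
    rw [h6]
    apply Finset.sum_le_sum_of_subset_of_nonneg _ (fun j _ _ => hU0 j)
    intro j hj
    rw [Finset.mem_range] at hj ⊢
    omega
  have h5 : ∑ l ∈ Finset.Icc 1 m, (l : ℝ) * A l * U (m - l) =
      ∑ l ∈ Finset.Icc 1 (d ^ n), (l : ℝ) * ‖tc (hh β (1 / 8)) l‖ *
        ‖uu β (1 / 8) (d ^ n - l)‖ := rfl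
  rw [← h5, h3] at h1
  linarith

/-- Lower bound for the Laurent coefficients just below every power of `d`. -/
theorem main_lower' {d : ℕ} (hd : 2 ≤ d) {β : ℂ → ℂ} (hβ : IsBeta d β) {ε : ℝ} (hε : 0 < ε)
    (K : ℝ) :
    ∀ᶠ n : ℕ in atTop, ∃ k : ℕ, (1 - ε) * (d : ℝ) ^ n ≤ k ∧ k < d ^ n ∧
      K ≤ (k : ℝ) * ‖tc β (k + 1)‖ * Real.sqrt (Real.log k) := by
  obtain ⟨K', hK', hKK⟩ : ∃ K' : ℝ, 0 < K' ∧ K ≤ K' := ⟨max K 1, by positivity, le_max_left _ _⟩
  obtain ⟨ε', hε', hε'1, hεε⟩ : ∃ ε' : ℝ, 0 < ε' ∧ ε' ≤ 1 / 2 ∧ ε' ≤ ε :=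
    ⟨min ε (1 / 2), by positivity, min_le_right _ _, min_le_left _ _⟩
  obtain ⟨E, hE, hsplit⟩ := split_ineq' hd hβ hε' (by linarith)
  have hball := ball_subset_multibrot hd
  have hU := dirichlet_u hβ (by norm_num : (0 : ℝ) < 1 / 8) hball
  obtain ⟨C, hC0, hC⟩ := partial_sums (U := fun j => ‖uu β (1 / 8) j‖) (fun _ => norm_nonneg _) hU
    (ε := 1 / (128 * K')) (by positivity)
  have hlogd : 0 < Real.log d := Real.log_pos (by exact_mod_cast (show 1 < d by omega))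
  have hd0 : (2 : ℝ) ≤ d := by exact_mod_cast hd
  -- the window starts above `d ^ (n - 1)`
  set y : ℕ → ℝ := fun n => Real.sqrt (n * Real.log d) with hy
  have hyt : Tendsto y atTop atTop := by
    apply Real.tendsto_sqrt_atTop.comp
    exact (tendsto_natCast_atTop_atTop).atTop_mul_const hlogd
  have hE' : Tendsto (fun n => E (n + 1)) atTop (𝓝 0) := hE.comp (tendsto_add_atTop_nat 1)
  have hev1 : ∀ᶠ n in atTop, E (n + 1) < 1 / 32 := hE'.eventually (gt_mem_nhds (by norm_num))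
  have hev2 : ∀ᶠ n in atTop, max 1 (64 * K' * C + 1) < y n := hyt.eventually_gt_atTop _
  have main : ∀ᶠ n : ℕ in atTop, ∃ k : ℕ, (1 - ε) * (d : ℝ) ^ (n + 1) ≤ k ∧ k < d ^ (n + 1) ∧
      K ≤ (k : ℝ) * ‖tc β (k + 1)‖ * Real.sqrt (Real.log k) := by
    filter_upwards [hev1, hev2, eventually_ge_atTop 1] with n h1 h2 hn
    by_contra hcon
    push Not at hcon
    have hy1 : 1 < y n := lt_of_le_of_lt (le_max_left _ _) h2
    have hy2 : 64 * K' * C + 1 < y n := lt_of_le_of_lt (le_max_right _ _) h2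
    have hy0 : 0 < y n := by linarith
    have hysq : y n ^ 2 = n * Real.log d := Real.sq_sqrt (by positivity)
    have hdn : (0 : ℝ) < (d : ℝ) ^ n := by positivity
    have h3 : ∀ k, cut d ε' (n + 1) ≤ k → k < d ^ (n + 1) →
        (k : ℝ) * ‖tc β (k + 1)‖ ≤ K' / y n := by
      intro k hk1 hk2
      have hk1' : (1 - ε') * (d : ℝ) ^ (n + 1) ≤ k :=
        (le_cut (n + 1)).trans (by exact_mod_cast hk1)
      have hk3 : (1 - ε) * (d : ℝ) ^ (n + 1) ≤ k := by
        refine le_trans ?_ hk1'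
        apply mul_le_mul_of_nonneg_right (by linarith) (by positivity)
      have hk4 : (d : ℝ) ^ n ≤ k := by
        refine le_trans ?_ hk1'
        have hq : 1 ≤ (1 - ε') * (d : ℝ) := by nlinarith
        calc (d : ℝ) ^ n = 1 * (d : ℝ) ^ n := (one_mul _).symm
          _ ≤ ((1 - ε') * (d : ℝ)) * (d : ℝ) ^ n := mul_le_mul_of_nonneg_right hq hdn.le
          _ = (1 - ε') * (d : ℝ) ^ (n + 1) := by ring
      have h4 := hcon k hk3 hk2
      have h5 : y n ≤ Real.sqrt (Real.log k) := by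
        apply Real.sqrt_le_sqrt
        rw [← Real.log_pow]
        exact Real.log_le_log hdn hk4
      rw [le_div_iff₀ hy0]
      have h6 : (0 : ℝ) ≤ (k : ℝ) * ‖tc β (k + 1)‖ := by positivity
      calc (k : ℝ) * ‖tc β (k + 1)‖ * y n ≤ (k : ℝ) * ‖tc β (k + 1)‖ * Real.sqrt (Real.log k) :=
            mul_le_mul_of_nonneg_left h5 h6
        _ ≤ K' := by linarith
    have h4 := hsplit (n + 1) (K' / y n) (by omega) (by positivity) h3
    have h5 := hC (d ^ (n + 1)) (Nat.one_le_pow _ _ (by omega))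
    have h6 : Real.sqrt (1 + Real.log ((d ^ (n + 1) : ℕ) : ℝ)) ≤ 2 * y n := by
      have h7 : (1 : ℝ) + Real.log ((d ^ (n + 1) : ℕ) : ℝ) ≤ (2 * y n) ^ 2 := by
        push_cast
        rw [Real.log_pow, mul_pow, hysq]
        push_cast
        have h8 : (1 : ℝ) ≤ n := by exact_mod_cast hn
        have h9 : (1 : ℝ) < n * Real.log d := by rw [← hysq]; nlinarith
        nlinarith
      exact (Real.sqrt_le_sqrt h7).trans_eq (Real.sqrt_sq (by positivity))
    have h7 : ∑ j ∈ Finset.range (d ^ (n + 1)), ‖uu β (1 / 8) j‖ ≤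
        C + 1 / (128 * K') * (2 * y n) := by
      refine h5.trans ?_
      gcongr
    have h8 : 2 * (K' / y n) * ∑ j ∈ Finset.range (d ^ (n + 1)), ‖uu β (1 / 8) j‖ ≤
        2 * (K' / y n) * (C + 1 / (128 * K') * (2 * y n)) :=
      mul_le_mul_of_nonneg_left h7 (by positivity)
    have h9 : 2 * (K' / y n) * (C + 1 / (128 * K') * (2 * y n)) = 2 * K' * C / y n + 1 / 32 := by
      field_simp
      ring
    have h10 : 2 * K' * C / y n ≤ 1 / 32 := by
      rw [div_le_iff₀ hy0]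
      linarith
    linarith
  rw [eventually_atTop] at main ⊢
  obtain ⟨N, hN⟩ := main
  refine ⟨N + 1, fun n hn => ?_⟩
  obtain ⟨j, rfl⟩ := Nat.exists_eq_add_of_le' (show 1 ≤ n by omega)
  exact hN j (by omega)

/-- If the Laurent series converges absolutely on the unit circle, its coefficients are not
`o(1/m)` just below the powers of `d`. -/
theorem main_dichotomy' {d : ℕ} (hd : 2 ≤ d) {β : ℂ → ℂ} (hβ : IsBeta d β)
    (hs : Summable (fun k => ‖tc β k‖)) :
    ∃ c : ℝ, 0 < c ∧ ∀ ε : ℝ, 0 < ε → ∀ᶠ n : ℕ in atTop, ∃ k : ℕ,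
      (1 - ε) * (d : ℝ) ^ n ≤ k ∧ k < d ^ n ∧ c ≤ (k : ℝ) * ‖tc β (k + 1)‖ := by
  obtain ⟨δ, hδ, hlow⟩ := hh_lower hd hβ
  have hs2 : Summable (fun k => ‖tc (hh β (1 / 8)) k‖) := by
    rw [← summable_nat_add_iff 2] at hs ⊢
    refine hs.congr fun k => ?_
    rw [tc_hh hβ _ (show 2 ≤ k + 2 by omega)]
  have hU : Summable (fun k => ‖uu β (1 / 8) k‖) := wiener (hh_diff hβ _) hs2 hδ hlow
  set B : ℝ := ∑' k, ‖uu β (1 / 8) k‖ with hB
  have hB0 : 0 ≤ B := tsum_nonneg fun _ => norm_nonneg _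
  refine ⟨1 / (64 * (B + 1)), by positivity, fun ε hε => ?_⟩
  obtain ⟨ε', hε', hε'1, hεε⟩ : ∃ ε' : ℝ, 0 < ε' ∧ ε' ≤ 1 / 2 ∧ ε' ≤ ε :=
    ⟨min ε (1 / 2), by positivity, min_le_right _ _, min_le_left _ _⟩
  obtain ⟨E, hE, hsplit⟩ := split_ineq' hd hβ hε' (by linarith)
  filter_upwards [hE.eventually (gt_mem_nhds (show (0 : ℝ) < 1 / 32 by norm_num)),
    eventually_ge_atTop 1] with n hn hn1
  by_contra hcon
  push Not at hcon
  have h1 := hsplit n (1 / (64 * (B + 1))) hn1 (by positivity) fun k h1 h2 => (hcon k (by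
    have hk1' : (1 - ε') * (d : ℝ) ^ n ≤ k := (le_cut n).trans (by exact_mod_cast h1)
    refine le_trans ?_ hk1'
    apply mul_le_mul_of_nonneg_right (by linarith) (by positivity)) h2).le
  have h2 : ∑ j ∈ Finset.range (d ^ n), ‖uu β (1 / 8) j‖ ≤ B :=
    hU.sum_le_tsum _ fun _ _ => norm_nonneg _
  have h3 : 2 * (1 / (64 * (B + 1))) * ∑ j ∈ Finset.range (d ^ n), ‖uu β (1 / 8) j‖ ≤
      2 * (1 / (64 * (B + 1))) * B := mul_le_mul_of_nonneg_left h2 (by positivity)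
  have h4 : 2 * (1 / (64 * (B + 1))) * B ≤ 1 / 32 := by
    rw [show 2 * (1 / (64 * (B + 1))) * B = B / (32 * (B + 1)) by field_simp; ring]
    rw [div_le_div_iff₀ (by positivity) (by norm_num)]
    linarith
  linarith

end Pool.Agent.H713R2
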